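import Mathlib

/-!
Absolute values of countable subfields of `ℂ` extend to `ℂ` (helper file).
-/

set_option autoImplicit false

namespace Pool.Agent.TH526.ZT

open Cardinal

/-- An embedding of a countable subfield of `ℂ` into a large algebraically closed field extends to
`ℂ`. -/
theorem exists_extend_embedding (F : Type) [Field F] [Countable F] [Algebra F ℂ] (Ω : Type)
    [Field Ω] [IsAlgClosed Ω] (hΩ : 𝔠 ≤ #Ω) (σ : F →+* Ω) :
    ∃ τ : ℂ →+* Ω, ∀ a, τ (algebraMap F ℂ a) = σ a := by
  let _ : Algebra F Ω := σ.toAlgebra
  obtain ⟨ι, x, hx⟩ := exists_isTranscendenceBasis' F ℂ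
  obtain ⟨κ, y, hy⟩ := exists_isTranscendenceBasis' F Ω
  have hκ : #Ω = #κ := IsAlgClosed.cardinal_eq_cardinal_transcendence_basis_of_aleph0_lt' y hy
    (mk_le_aleph0_iff.2 inferInstance) (aleph0_lt_continuum.trans_le hΩ)
  have hι : #ι ≤ #κ :=
    (mk_le_of_injective hx.1.injective).trans ((mk_complex.le.trans hΩ).trans hκ.le)
  obtain ⟨e⟩ := hι
  let ψ : Algebra.adjoin F (Set.range x) →ₐ[F] Ω :=
    (MvPolynomial.aeval (fun i => y (e i))).comp (hx.1.aevalEquiv.symm : _ →ₐ[F] _)
  have hψ : Function.Injective ψ := by
    have h1 : Function.Injective (MvPolynomial.aeval (fun i => y (e i)) :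
      MvPolynomial ι F →ₐ[F] Ω) := hy.1.comp e e.injective
    intro a b hab
    exact hx.1.aevalEquiv.symm.injective (h1 hab)
  let _ : Algebra (Algebra.adjoin F (Set.range x)) Ω := ψ.toRingHom.toAlgebra
  have _ : FaithfulSMul (Algebra.adjoin F (Set.range x)) Ω :=
    (faithfulSMul_iff_algebraMap_injective _ _).2 hψ
  have _ : Algebra.IsAlgebraic (Algebra.adjoin F (Set.range x)) ℂ := hx.isAlgebraic
  let τ : ℂ →ₐ[Algebra.adjoin F (Set.range x)] Ω := IsAlgClosed.lift
  refine ⟨τ.toRingHom, fun a => ?_⟩
  have h1 := τ.commutes (algebraMap F (Algebra.adjoin F (Set.range x)) a)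
  exact h1.trans (ψ.commutes a)

/-- The archimedean and the non-archimedean absolute values of a countable subfield of `ℂ` extend to
`ℂ`. -/
theorem exists_abs_extend (F : Type) [Field F] [Countable F] [Algebra F ℂ]
    (w : AbsoluteValue F ℝ) (hw : IsNonarchimedean w ∨ ∃ σ : F →+* ℂ, ∀ x, w x = ‖σ x‖) :
    ∃ v : AbsoluteValue ℂ ℝ, ∀ x, v (algebraMap F ℂ x) = w x := by
  classical
  rcases hw with hv | ⟨σ, hσ⟩
  · by_cases hnt : w.IsNontrivial
    · have hnorm : ∀ x : WithAbs w, ‖(x : w.Completion)‖ = w (WithAbs.ofAbs x) := fun x =>
        UniformSpace.Completion.norm_coe x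
      obtain ⟨x, hx⟩ : ∃ x : F, 1 < w x := by
        obtain ⟨x, hx0, hx1⟩ := hnt
        rcases lt_or_gt_of_ne hx1 with h | h
        · refine ⟨x⁻¹, ?_⟩
          rw [map_inv₀]
          exact (one_lt_inv₀ (w.pos hx0)).2 h
        · exact ⟨x, h⟩
      let _ : NontriviallyNormedField w.Completion :=
        { (inferInstance : NormedField w.Completion) with
          non_trivial := ⟨((WithAbs.toAbs w x : WithAbs w) : w.Completion), by
            have h := hnorm (WithAbs.toAbs w x)
            refine lt_of_lt_of_eq ?_ h.symm
            exact hx⟩ }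
      have _ : IsUltrametricDist w.Completion :=
        IsUltrametricDist.isUltrametricDist_of_forall_norm_add_le_max_norm (by
          intro a b
          refine UniformSpace.Completion.induction_on₂ a b ?_ ?_
          · exact isClosed_le (continuous_fst.add continuous_snd).norm
              (continuous_fst.norm.max continuous_snd.norm)
          · intro a b
            rw [← UniformSpace.Completion.coe_add, hnorm, hnorm, hnorm]
            exact hv _ _)
      let w' : AbsoluteValue (AlgebraicClosure w.Completion) ℝ :=
        { toFun := spectralNorm w.Completion (AlgebraicClosure w.Completion)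
          map_mul' := fun a b =>
            spectralAlgNorm_mul (K := w.Completion) (L := AlgebraicClosure w.Completion) a b
          nonneg' := spectralNorm_nonneg
          eq_zero' := fun a => by
            constructor
            · intro h
              by_contra hne
              exact (spectralNorm_zero_lt hne (Algebra.IsAlgebraic.isAlgebraic a)).ne' h
            · rintro rfl
              exact spectralNorm_zero
          add_le' := fun a b => isNonarchimedean_spectralNorm.add_le spectralNorm_nonneg }
      let j : F →+* AlgebraicClosure w.Completion :=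
        (algebraMap w.Completion (AlgebraicClosure w.Completion)).comp
          ((UniformSpace.Completion.coeRingHom (α := WithAbs w)).comp
            (WithAbs.equiv w).symm.toRingHom)
      have hcard : 𝔠 ≤ #(AlgebraicClosure w.Completion) :=
        (continuum_le_cardinal_of_nontriviallyNormedField w.Completion).trans
          (mk_le_of_injective (algebraMap w.Completion (AlgebraicClosure w.Completion)).injective)
      obtain ⟨τ, hτ⟩ := exists_extend_embedding F (AlgebraicClosure w.Completion) hcard j
      refine ⟨w'.comp τ.injective, fun y => ?_⟩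
      change w' (τ (algebraMap F ℂ y)) = w y
      rw [hτ]
      have h1 : spectralNorm w.Completion (AlgebraicClosure w.Completion)
          (algebraMap w.Completion (AlgebraicClosure w.Completion)
            ((WithAbs.toAbs w y : WithAbs w) : w.Completion)) = _ := spectralNorm_extends _
      exact h1.trans (hnorm (WithAbs.toAbs w y))
    · refine ⟨AbsoluteValue.trivial, fun y => ?_⟩
      rcases eq_or_ne y 0 with rfl | hy
      · rw [map_zero, map_zero, map_zero]
      · rw [AbsoluteValue.trivial_apply ((map_ne_zero _).2 hy)]
        rw [AbsoluteValue.not_isNontrivial_iff] at hnt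
        exact (hnt y hy).symm
  · obtain ⟨τ, hτ⟩ := exists_extend_embedding F ℂ mk_complex.ge σ
    refine ⟨(NormedField.toAbsoluteValue ℂ).comp τ.injective, fun y => ?_⟩
    change ‖τ (algebraMap F ℂ y)‖ = w y
    rw [hτ, hσ]

end Pool.Agent.TH526.ZT
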