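import Pool.Agent.H173R3.ZT.Pos
import Mathlib

/-!
Tropical relations at finitely many places, with bounded errors (helper file).
-/

set_option autoImplicit false

namespace Pool.Agent.TH526.ZT

open MvPolynomial Pool.Agent.H173R3.ZT

variable {n : ℕ}

/-- the logarithm of an absolute value of a character -/
theorem log_chr {F : Type*} [Field F] (v : AbsoluteValue F ℝ) {x : Fin n → F}
    (hx : ∀ j, x j ≠ 0) (a : Fin n → ℤ) :
    Real.log (v (chr x a)) = ∑ j, (a j : ℝ) * Real.log (v (x j)) := by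
  rw [chr, map_prod, Real.log_prod]
  · refine Finset.sum_congr rfl fun j _ => ?_
    rw [map_zpow₀, Real.log_zpow]
  · intro j _
    rw [map_zpow₀]
    exact zpow_ne_zero _ (by simpa using hx j)

/-- If a sum vanishes, then two of its terms have almost the same absolute value: up to the number of
terms for an arbitrary absolute value. -/
theorem exists_dominant_pair {ι : Type*} (s : Finset ι) (hs : s.Nonempty)
    (v : AbsoluteValue ℂ ℝ) (z : ι → ℂ) (hz : ∀ i ∈ s, z i ≠ 0) (h0 : ∑ i ∈ s, z i = 0) :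
    ∃ i ∈ s, ∃ j ∈ s, i ≠ j ∧ |Real.log (v (z i)) - Real.log (v (z j))| ≤ Real.log s.card := by
  classical
  obtain ⟨i, hi, hmax⟩ := Finset.exists_max_image s (fun i => v (z i)) hs
  have hpos : ∀ j ∈ s, 0 < v (z j) := fun j hj => v.pos (hz j hj)
  have hcard : (0 : ℝ) < s.card := by exact_mod_cast Finset.card_pos.2 hs
  have hex : ∃ j ∈ s, j ≠ i ∧ v (z i) ≤ v (z j) * s.card := by
    by_contra hcon
    push Not at hcon
    have h1 : z i = -∑ j ∈ s.erase i, z j := by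
      rw [← Finset.add_sum_erase s z hi] at h0
      exact eq_neg_of_add_eq_zero_left h0
    have h2 : v (z i) ≤ ∑ j ∈ s.erase i, v (z j) := by
      conv_lhs => rw [h1, v.map_neg]
      exact v.sum_le _ _
    have h3 : (∑ j ∈ s.erase i, v (z j)) * s.card ≤ ∑ _j ∈ s.erase i, v (z i) := by
      rw [Finset.sum_mul]
      exact Finset.sum_le_sum fun j hj =>
        (hcon j (Finset.mem_of_mem_erase hj) (Finset.ne_of_mem_erase hj)).le
    rw [Finset.sum_const, Finset.card_erase_of_mem hi, nsmul_eq_mul] at h3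
    have h4 : ((s.card - 1 : ℕ) : ℝ) = s.card - 1 := by
      rw [Nat.cast_sub (Finset.card_pos.2 hs), Nat.cast_one]
    rw [h4] at h3
    have h5 := mul_le_mul_of_nonneg_right h2 hcard.le
    nlinarith [hpos i hi]
  obtain ⟨j, hj, hji, hle⟩ := hex
  refine ⟨i, hi, j, hj, hji.symm, ?_⟩
  have h1 : Real.log (v (z j)) ≤ Real.log (v (z i)) := Real.log_le_log (hpos j hj) (hmax j hj)
  have h2 : Real.log (v (z i)) ≤ Real.log (v (z j)) + Real.log s.card := by
    rw [← Real.log_mul (hpos j hj).ne' hcard.ne']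
    exact Real.log_le_log (hpos i hi) hle
  rw [abs_of_nonneg (sub_nonneg.2 h1)]
  linarith

/-- the error term of a polynomial at a place -/
noncomputable def err (v : AbsoluteValue ℂ ℝ) (f : MvPolynomial (Fin n) ℂ) : ℝ :=
  ∑ α ∈ f.support, |Real.log (v (f.coeff α))| + Real.log f.support.card

theorem err_nonneg (v : AbsoluteValue ℂ ℝ) (f : MvPolynomial (Fin n) ℂ) : 0 ≤ err v f :=
  add_nonneg (Finset.sum_nonneg fun _ _ => abs_nonneg _) (Real.log_natCast_nonneg _)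

/-- **Tropical relation.** If a nonzero polynomial vanishes at `x` then two of its monomials have
almost the same absolute value at `x`. -/
theorem exists_pair_real (v : AbsoluteValue ℂ ℝ) (x : Fin n → ℂ)
    (hx : ∀ i, x i ≠ 0) (f : MvPolynomial (Fin n) ℂ) (hf : f ≠ 0) (h0 : eval x f = 0) :
    ∃ α ∈ f.support, ∃ β ∈ f.support, α ≠ β ∧
      |∑ j, ((iv α - iv β) j : ℝ) * Real.log (v (x j))| ≤ 2 * err v f := by
  classical
  have hne : f.support.Nonempty := by
    rwa [Finset.nonempty_iff_ne_empty, Ne, MvPolynomial.support_eq_empty]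
  have hprod : ∀ β : Fin n →₀ ℕ, (∏ i, x i ^ β i) ≠ 0 := fun β =>
    Finset.prod_ne_zero_iff.2 fun i _ => pow_ne_zero _ (hx i)
  rw [eval_eq'] at h0
  obtain ⟨α, hα, β, hβ, hαβ, hle⟩ := exists_dominant_pair f.support hne v
    (fun α => f.coeff α * ∏ i, x i ^ α i)
    (fun α hα => mul_ne_zero (mem_support_iff.1 hα) (hprod α)) h0
  refine ⟨α, hα, β, hβ, hαβ, ?_⟩
  have hlog : ∀ γ ∈ f.support, Real.log (v (f.coeff γ * ∏ i, x i ^ γ i)) =
      Real.log (v (f.coeff γ)) + ∑ j, (iv γ j : ℝ) * Real.log (v (x j)) := by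
    intro γ hγ
    rw [← log_chr v hx, chr_iv, map_mul, Real.log_mul]
    · exact v.ne_zero_iff.2 (mem_support_iff.1 hγ)
    · exact v.ne_zero_iff.2 (hprod γ)
  rw [hlog α hα, hlog β hβ] at hle
  have h4 : ∑ j, ((iv α - iv β) j : ℝ) * Real.log (v (x j)) =
      ∑ j, (iv α j : ℝ) * Real.log (v (x j)) - ∑ j, (iv β j : ℝ) * Real.log (v (x j)) := by
    rw [← Finset.sum_sub_distrib]
    refine Finset.sum_congr rfl fun j _ => ?_
    rw [Pi.sub_apply]
    push_cast
    ring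
  rw [h4]
  have hc0 : 0 ≤ Real.log f.support.card := Real.log_natCast_nonneg _
  have hle' : ∀ γ ∈ f.support, |Real.log (v (f.coeff γ))| ≤
      ∑ γ ∈ f.support, |Real.log (v (f.coeff γ))| := fun γ hγ =>
    Finset.single_le_sum (f := fun γ => |Real.log (v (f.coeff γ))|)
      (fun _ _ => abs_nonneg _) hγ
  have h5 := hle' α hα
  have h6 := hle' β hβ
  rw [err]
  rw [abs_le] at hle h5 h6 ⊢
  constructor <;> linarith [hle.1, hle.2, h5.1, h5.2, h6.1, h6.2]

/-- The elements of the span of finitely many vectors have bounded coefficients. -/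
theorem exists_bdd_coeff {ι : Type*} [Fintype ι] (δ : ι → Fin n → ℝ) :
    ∃ C : ℝ, 0 ≤ C ∧ ∀ φ ∈ Submodule.span ℝ (Set.range δ), ∃ c : ι → ℝ,
      φ = ∑ i, c i • δ i ∧ ∀ i, |c i| ≤ C * ‖φ‖ := by
  classical
  let L : (ι → ℝ) →ₗ[ℝ] (Fin n → ℝ) := Fintype.linearCombination ℝ δ
  have hL : LinearMap.range L = Submodule.span ℝ (Set.range δ) := Fintype.range_linearCombination ℝ δ
  obtain ⟨M, hM⟩ := LinearMap.exists_rightInverse_of_surjective L.rangeRestrict
    (LinearMap.range_rangeRestrict L)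
  let M' := LinearMap.toContinuousLinearMap M
  refine ⟨‖M'‖, M'.opNorm_nonneg, fun φ hφ => ?_⟩
  rw [← hL] at hφ
  refine ⟨M ⟨φ, hφ⟩, ?_, fun i => ?_⟩
  · have h1 : L.rangeRestrict (M ⟨φ, hφ⟩) = ⟨φ, hφ⟩ := LinearMap.congr_fun hM ⟨φ, hφ⟩
    have h2 : L (M ⟨φ, hφ⟩) = φ := congrArg Subtype.val h1
    have h3 : L (M ⟨φ, hφ⟩) = ∑ i, M ⟨φ, hφ⟩ i • δ i := Fintype.linearCombination_apply ..
    exact h2.symm.trans h3
  · have h1 := norm_le_pi_norm (M ⟨φ, hφ⟩) i
    have h2 := M'.le_opNorm ⟨φ, hφ⟩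
    calc |M ⟨φ, hφ⟩ i| = ‖M ⟨φ, hφ⟩ i‖ := rfl
      _ ≤ ‖M ⟨φ, hφ⟩‖ := h1
      _ ≤ ‖M'‖ * ‖(⟨φ, hφ⟩ : LinearMap.range L)‖ := h2
      _ = ‖M'‖ * ‖φ‖ := rfl

/-- **Main argument.** If a translate of a variety of dimension `d` has a point on a coset of
codimension at least `d + 1`, then the vectors of the translation at `t` of the places are near to
a hyperplane. -/
theorem core (d : ℕ) (f : {J : Finset (Fin n) // J.card = d + 1} → MvPolynomial (Fin n) ℂ)
    (hf0 : ∀ J, f J ≠ 0) (hfJ : ∀ J, ∀ α ∈ (f J).support, ∀ j, j ∉ J.1 → α j = 0)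
    (N t : ℕ) (hN : (Fintype.piFinset fun J => (f J).support ×ˢ (f J).support).card * t < N)
    (v : Fin N → AbsoluteValue ℂ ℝ) (B : ℝ) (hB : 0 ≤ B) :
    ∃ B' : ℝ, 0 ≤ B' ∧ ∀ x g η : Fin n → ℂ, (∀ j, x j ≠ 0) → (∀ j, g j ≠ 0) → (∀ j, η j ≠ 0) →
      (∀ J, eval x (f J) = 0) → (∀ i j, |Real.log (v i (η j))| ≤ B) →
      ∀ Λ : Submodule ℤ (Fin n → ℤ), d + 1 ≤ Module.finrank ℤ Λ →
        (∀ a ∈ Λ, ∀ i, v i (chr (fun j => g j * x j) a) = v i (chr η a)) →
        ∃ T : Finset (Fin N), T.card = t ∧ ∃ φ : Fin n → ℝ, ‖φ‖ = 1 ∧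
          ∀ i ∈ T, |∑ j, φ j * Real.log (v i (g j))| ≤ B' := by
  classical
  let δ : ({J : Finset (Fin n) // J.card = d + 1} → (Fin n →₀ ℕ) × (Fin n →₀ ℕ)) →
      {J : Finset (Fin n) // J.card = d + 1} → Fin n → ℝ := fun s J j =>
        (((iv (s J).1 - iv (s J).2) j : ℤ) : ℝ)
  choose C hC0 hC using fun s => exists_bdd_coeff (δ s)
  set PF := Fintype.piFinset fun J => (f J).support ×ˢ (f J).support with hPF
  let E : ℝ := ∑ i, ∑ J, 2 * err (v i) (f J)
  have hE0 : 0 ≤ E := Finset.sum_nonneg fun i _ => Finset.sum_nonneg fun J _ =>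
    mul_nonneg (by norm_num) (err_nonneg _ _)
  refine ⟨n * B + (∑ s ∈ PF, C s) * E, by
    have := Finset.sum_nonneg (fun s (_ : s ∈ PF) => hC0 s)
    positivity, ?_⟩
  intro x g η hx hg hη hfx hηB Λ hrank hΛ
  -- tropical relations
  have h1 : ∀ i : Fin N, ∀ J : {J : Finset (Fin n) // J.card = d + 1},
      ∃ p : (Fin n →₀ ℕ) × (Fin n →₀ ℕ),
        (p ∈ (f J).support ×ˢ (f J).support ∧ p.1 ≠ p.2 ∧
          |∑ j, ((iv p.1 - iv p.2) j : ℝ) * Real.log (v i (x j))| ≤ 2 * err (v i) (f J)) := by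
    intro i J
    obtain ⟨α, hα, β, hβ, h1, h2⟩ := exists_pair_real (v i) x hx (f J) (hf0 J) (hfx J)
    exact ⟨(α, β), Finset.mk_mem_product hα hβ, h1, h2⟩
  choose p hp using h1
  obtain ⟨s, hs, hcard⟩ := Finset.exists_lt_card_fiber_of_mul_lt_card_of_maps_to
    (s := (Finset.univ : Finset (Fin N)))
    (t := PF) (f := p) (n := t)
    (fun i _ => Fintype.mem_piFinset.2 fun J => (hp i J).1)
    (by rw [Finset.card_univ, Fintype.card_fin]; exact hN)
  set I := (Finset.univ : Finset (Fin N)).filter fun i => p i = s with hI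
  have hIK : ∀ i ∈ I, p i = s := fun i hi => (Finset.mem_filter.1 hi).2
  have hIne : I.Nonempty := Finset.card_pos.1 (by omega)
  set D : Submodule ℤ (Fin n → ℤ) := Submodule.span ℤ (Set.range fun J => iv (s J).1 - iv (s J).2)
    with hD
  obtain ⟨i₀, hi₀⟩ := hIne
  have hD2 : ∀ J : Finset (Fin n), J.card = d + 1 →
      ∃ χ ∈ D, χ ≠ 0 ∧ ∀ j, j ∉ J → χ j = 0 := by
    intro J hJ
    have h2 := hp i₀ ⟨J, hJ⟩
    rw [hIK i₀ hi₀] at h2
    obtain ⟨h3, h4, -⟩ := h2
    rw [Finset.mem_product] at h3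
    refine ⟨iv (s ⟨J, hJ⟩).1 - iv (s ⟨J, hJ⟩).2, Submodule.subset_span ⟨⟨J, hJ⟩, rfl⟩, ?_, ?_⟩
    · intro h5
      apply h4
      ext j
      have h6 := congrFun h5 j
      simp only [iv, Pi.sub_apply, Pi.zero_apply] at h6
      omega
    · intro j hj
      have h5 := hfJ ⟨J, hJ⟩ _ h3.1 j hj
      have h6 := hfJ ⟨J, hJ⟩ _ h3.2 j hj
      simp [iv, h5, h6]
  obtain ⟨χ, hχΛ, hχD, hχ0⟩ := exists_mem_inf D Λ hD2 hrank
  -- the real vector
  let ψ : Fin n → ℝ := fun j => (χ j : ℝ)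
  have hψ0 : ψ ≠ 0 := by
    intro h
    apply hχ0
    funext j
    have h' : (χ j : ℝ) = 0 := congrFun h j
    exact_mod_cast h'
  have hψn : ‖ψ‖ ≠ 0 := norm_ne_zero_iff.2 hψ0
  have hψD : ψ ∈ Submodule.span ℝ (Set.range (δ s)) := by
    have h2 : ∀ χ' ∈ D, (fun j => (χ' j : ℝ)) ∈ Submodule.span ℝ (Set.range (δ s)) := by
      intro χ' hχ'
      rw [hD] at hχ'
      induction hχ' using Submodule.span_induction with
      | mem y hy =>
        obtain ⟨J, rfl⟩ := hy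
        exact Submodule.subset_span ⟨J, rfl⟩
      | zero =>
        have : (fun j : Fin n => (((0 : Fin n → ℤ) j : ℤ) : ℝ)) = 0 := by
          funext j
          simp
        rw [this]
        exact Submodule.zero_mem _
      | add y z _ _ hy hz =>
        have : (fun j : Fin n => (((y + z : Fin n → ℤ) j : ℤ) : ℝ)) =
            (fun j => (y j : ℝ)) + fun j => (z j : ℝ) := by
          funext j
          simp
        rw [this]
        exact Submodule.add_mem _ hy hz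
      | smul a y _ hy =>
        have : (fun j : Fin n => (((a • y : Fin n → ℤ) j : ℤ) : ℝ)) =
            (a : ℝ) • fun j => (y j : ℝ) := by
          funext j
          simp
        rw [this]
        exact Submodule.smul_mem _ _ hy
    exact h2 χ hχD
  obtain ⟨c, hc1, hc2⟩ := hC s ψ hψD
  obtain ⟨T, hTI, hTc⟩ := Finset.exists_subset_card_eq hcard.le
  refine ⟨T, hTc, ‖ψ‖⁻¹ • ψ, ?_, ?_⟩
  · rw [norm_smul, norm_inv, norm_norm, inv_mul_cancel₀ hψn]
  intro i hi
  have hiI := hTI hi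
  have hgx : ∀ j, g j * x j ≠ 0 := fun j => mul_ne_zero (hg j) (hx j)
  -- the relation from `Λ`
  have h2 : ∑ j, ψ j * Real.log (v i (g j)) =
      ∑ j, ψ j * Real.log (v i (η j)) - ∑ j, ψ j * Real.log (v i (x j)) := by
    have h3 := congrArg Real.log (hΛ χ hχΛ i)
    rw [log_chr (v i) hgx, log_chr (v i) hη] at h3
    have h4 : ∑ j, (χ j : ℝ) * Real.log (v i (g j * x j)) =
        ∑ j, (χ j : ℝ) * Real.log (v i (g j)) + ∑ j, (χ j : ℝ) * Real.log (v i (x j)) := by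
      rw [← Finset.sum_add_distrib]
      refine Finset.sum_congr rfl fun j _ => ?_
      rw [map_mul, Real.log_mul (by simpa using hg j) (by simpa using hx j)]
      ring
    rw [h4] at h3
    change ∑ j, (χ j : ℝ) * Real.log (v i (g j)) = ∑ j, (χ j : ℝ) * Real.log (v i (η j)) -
      ∑ j, (χ j : ℝ) * Real.log (v i (x j))
    linarith
  have h3 : |∑ j, ψ j * Real.log (v i (η j))| ≤ n * B * ‖ψ‖ := by
    calc |∑ j, ψ j * Real.log (v i (η j))| ≤ ∑ j, |ψ j * Real.log (v i (η j))| :=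
          Finset.abs_sum_le_sum_abs _ _
      _ ≤ ∑ _j : Fin n, ‖ψ‖ * B := by
          refine Finset.sum_le_sum fun j _ => ?_
          rw [abs_mul]
          exact mul_le_mul (norm_le_pi_norm ψ j) (hηB i j) (abs_nonneg _) (norm_nonneg _)
      _ = n * B * ‖ψ‖ := by
          rw [Finset.sum_const, Finset.card_univ, Fintype.card_fin, nsmul_eq_mul]
          ring
  have h4 : ∑ j, ψ j * Real.log (v i (x j)) =
      ∑ J, c J * ∑ j, ((iv (s J).1 - iv (s J).2) j : ℝ) * Real.log (v i (x j)) := by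
    have h5 : ∀ j, ψ j = ∑ J, c J * (((iv (s J).1 - iv (s J).2) j : ℤ) : ℝ) := by
      intro j
      have h6 := congrFun hc1 j
      rw [Finset.sum_apply] at h6
      simpa [δ] using h6
    simp only [h5, Finset.sum_mul, Finset.mul_sum]
    rw [Finset.sum_comm]
    refine Finset.sum_congr rfl fun J _ => Finset.sum_congr rfl fun j _ => ?_
    ring
  have h5 : |∑ j, ψ j * Real.log (v i (x j))| ≤ C s * ‖ψ‖ * E := by
    rw [h4]
    calc |∑ J, c J * ∑ j, ((iv (s J).1 - iv (s J).2) j : ℝ) * Real.log (v i (x j))|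
        ≤ ∑ J, |c J * ∑ j, ((iv (s J).1 - iv (s J).2) j : ℝ) * Real.log (v i (x j))| :=
          Finset.abs_sum_le_sum_abs _ _
      _ ≤ ∑ J, (C s * ‖ψ‖) * (2 * err (v i) (f J)) := by
          refine Finset.sum_le_sum fun J _ => ?_
          rw [abs_mul]
          have h6 := (hp i J).2.2
          rw [hIK i hiI] at h6
          exact mul_le_mul (hc2 J) h6 (abs_nonneg _) (mul_nonneg (hC0 s) (norm_nonneg _))
      _ = (C s * ‖ψ‖) * ∑ J, 2 * err (v i) (f J) := by rw [Finset.mul_sum]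
      _ ≤ (C s * ‖ψ‖) * E := by
          refine mul_le_mul_of_nonneg_left ?_ (mul_nonneg (hC0 s) (norm_nonneg _))
          exact Finset.single_le_sum (f := fun i => ∑ J, 2 * err (v i) (f J))
            (fun i _ => Finset.sum_nonneg fun J _ => mul_nonneg (by norm_num) (err_nonneg _ _))
            (Finset.mem_univ i)
  have hCs : C s ≤ ∑ s ∈ PF, C s := Finset.single_le_sum (f := C) (fun s _ => hC0 s) hs
  have h6 : |∑ j, ψ j * Real.log (v i (g j))| ≤ (n * B + (∑ s ∈ PF, C s) * E) * ‖ψ‖ := by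
    rw [h2]
    calc |∑ j, ψ j * Real.log (v i (η j)) - ∑ j, ψ j * Real.log (v i (x j))|
        ≤ |∑ j, ψ j * Real.log (v i (η j))| + |∑ j, ψ j * Real.log (v i (x j))| := abs_sub _ _
      _ ≤ n * B * ‖ψ‖ + C s * ‖ψ‖ * E := add_le_add h3 h5
      _ = (n * B + C s * E) * ‖ψ‖ := by ring
      _ ≤ (n * B + (∑ s ∈ PF, C s) * E) * ‖ψ‖ := by gcongr
  have h7 : ∑ j, (‖ψ‖⁻¹ • ψ) j * Real.log (v i (g j)) =
      ‖ψ‖⁻¹ * ∑ j, ψ j * Real.log (v i (g j)) := by
    rw [Finset.mul_sum]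
    refine Finset.sum_congr rfl fun j _ => ?_
    rw [Pi.smul_apply, smul_eq_mul]
    ring
  rw [h7, abs_mul, abs_of_nonneg (inv_nonneg.2 (norm_nonneg _))]
  rw [inv_mul_le_iff₀ (lt_of_le_of_ne (norm_nonneg _) (Ne.symm hψn))]
  calc |∑ j, ψ j * Real.log (v i (g j))| ≤ (n * B + (∑ s ∈ PF, C s) * E) * ‖ψ‖ := h6
    _ = ‖ψ‖ * (n * B + (∑ s ∈ PF, C s) * E) := by ring

end Pool.Agent.TH526.ZT
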