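import Pool.Agent.TH526.ZT.A

/-!
Specialisation of generic points to complex points, some of whose coordinates are given up to roots
of unity (helper file). The construction is the one of `H173R3.ZT.Pos`.
-/

set_option autoImplicit false

namespace Pool.Agent.TH526.ZT

open MvPolynomial Pool.Agent.H173R3.ZT

theorem exists_torsion_ne_zero' {ι : Type*} [Finite ι] (h : MvPolynomial ι ℂ) (hh : h ≠ 0)
    (η : ι → ℂ) (hη : ∀ i, η i ≠ 0) :
    ∃ ζ : ι → ℂ, (∀ i, ∃ m : ℕ, 0 < m ∧ (ζ i / η i) ^ m = 1) ∧ eval ζ h ≠ 0 := by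
  classical
  by_contra hcon
  push Not at hcon
  apply hh
  refine MvPolynomial.funext_set (fun i => {z : ℂ | ∃ m : ℕ, 0 < m ∧ (z / η i) ^ m = 1})
    (fun i => ?_) ?_
  · refine Set.infinite_of_injective_forall_mem
      (f := fun k : ℕ => Complex.exp (2 * Real.pi * Complex.I / ((k + 1 : ℕ) : ℂ)) * η i) ?_ ?_
    · intro k l hkl
      have hk := Complex.isPrimitiveRoot_exp (k + 1) (Nat.succ_ne_zero k)
      have hl := Complex.isPrimitiveRoot_exp (l + 1) (Nat.succ_ne_zero l)
      have hkl' : Complex.exp (2 * Real.pi * Complex.I / ((k + 1 : ℕ) : ℂ)) =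
        Complex.exp (2 * Real.pi * Complex.I / ((l + 1 : ℕ) : ℂ)) := mul_right_cancel₀ (hη i) hkl
      rw [hkl'] at hk
      have := hk.unique hl
      omega
    · intro k
      refine ⟨k + 1, Nat.succ_pos k, ?_⟩
      rw [mul_div_cancel_right₀ _ (hη i)]
      exact (Complex.isPrimitiveRoot_exp (k + 1) (Nat.succ_ne_zero k)).pow_eq_one
  · intro x hx
    rw [map_zero]
    exact hcon x fun i => hx i (Set.mem_univ i)

/-- Specialisation of a generic point. -/
theorem exists_point {n : ℕ} (Ω : Type*) [Field Ω] [Algebra ℂ Ω] (z : Fin n → Ω)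
    (hz : ∀ j, z j ≠ 0) (T : Finset (Fin n)) (hT : AlgebraicIndependent ℂ (fun j : T => z j))
    (halg : ∀ j, IsAlgebraic (Algebra.adjoin ℂ (Set.range fun j : T => z j)) (z j))
    (η : Fin n → ℂ) (hη : ∀ j, η j ≠ 0) :
    ∃ y : Fin n → ℂ, (∀ j, y j ≠ 0) ∧
      (∀ f : MvPolynomial (Fin n) ℂ, aeval z f = 0 → eval y f = 0) ∧
      ∀ j ∈ T, ∃ m : ℕ, 0 < m ∧ (y j / η j) ^ m = 1 := by
  classical
  set y : T → Ω := fun j => z j with hy
  -- relations
  have hrel : ∀ j : Fin n, ∃ (p : Polynomial Ω) (r s : MvPolynomial T ℂ), r ≠ 0 ∧ s ≠ 0 ∧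
      p.coeff 0 = aeval y r ∧ p.leadingCoeff = aeval y s ∧
      (∀ k, ∃ t : MvPolynomial T ℂ, p.coeff k = aeval y t) ∧ p.eval (z j) = 0 := by
    intro j
    obtain ⟨q, hq0, hq⟩ := (halg j).exists_nonzero_coeff_and_aeval_eq_zero
      (mem_nonZeroDivisors_of_ne_zero (hz j))
    set p : Polynomial Ω := q.map (algebraMap (Algebra.adjoin ℂ (Set.range y)) Ω) with hp
    have hcoef : ∀ k, ∃ t : MvPolynomial T ℂ, p.coeff k = aeval y t := by
      intro k
      rw [hp, Polynomial.coeff_map]
      have h1 : ((q.coeff k : Algebra.adjoin ℂ (Set.range y)) : Ω) ∈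
          Algebra.adjoin ℂ (Set.range y) := (q.coeff k).2
      have h2 : ∀ x : Ω, x ∈ Algebra.adjoin ℂ (Set.range y) →
          ∃ t : MvPolynomial T ℂ, aeval y t = x := by
        intro x hx
        rw [Algebra.adjoin_range_eq_range_aeval] at hx
        exact hx
      obtain ⟨t, ht⟩ := h2 _ h1
      exact ⟨t, ht.symm⟩
    have hinj : Function.Injective (algebraMap (Algebra.adjoin ℂ (Set.range y)) Ω) :=
      Subtype.val_injective
    have hpc0 : p.coeff 0 ≠ 0 := by
      rw [hp, Polynomial.coeff_map]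
      intro h
      exact hq0 (hinj (by rw [h, map_zero]))
    have hpl : p.leadingCoeff ≠ 0 := by
      rw [Polynomial.leadingCoeff_ne_zero]
      rintro h
      rw [h, Polynomial.coeff_zero] at hpc0
      exact hpc0 rfl
    obtain ⟨r, hr⟩ := hcoef 0
    obtain ⟨s, hs⟩ := hcoef p.natDegree
    refine ⟨p, r, s, ?_, ?_, hr, hs, hcoef, ?_⟩
    · rintro rfl
      rw [map_zero] at hr
      exact hpc0 hr
    · rintro rfl
      rw [map_zero] at hs
      exact hpl hs
    · rw [hp, Polynomial.eval_map]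
      exact hq
  choose p r s hr hs hpr hps hpt hpz using hrel
  set h : MvPolynomial T ℂ := ∏ j, (r j * s j) with hh
  have hh0 : h ≠ 0 := Finset.prod_ne_zero_iff.2 fun j _ => mul_ne_zero (hr j) (hs j)
  obtain ⟨ζ, hζ, hζh⟩ := exists_torsion_ne_zero' h hh0 (fun j : T => η j) (fun j => hη j)
  have hζr : ∀ j, eval ζ (r j) ≠ 0 ∧ eval ζ (s j) ≠ 0 := by
    intro j
    rw [hh, map_prod, Finset.prod_ne_zero_iff] at hζh
    have := hζh j (Finset.mem_univ j)
    rw [map_mul] at this
    exact ⟨left_ne_zero_of_mul this, right_ne_zero_of_mul this⟩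
  obtain ⟨W, hW1, hW2, hW3⟩ := exists_center y hT ζ
  have hvz : ∀ j, W.valuation (z j) = 1 := by
    intro j
    refine val_eq_one_of_rel W (z j) (p j) ?_ ?_ ?_ (hpz j)
    · rw [hpr]
      exact hW3 _ (hζr j).1
    · rw [hps]
      exact hW3 _ (hζr j).2
    · intro k
      obtain ⟨t, ht⟩ := hpt j k
      rw [ht]
      exact hW1 t
  have hconst : ∀ c : ℂ, W.valuation (algebraMap ℂ Ω c) ≤ 1 := by
    intro c
    have := hW1 (C c)
    rwa [aeval_C] at this
  -- units of `W`
  have hunit : ∀ x : Ω, W.valuation x = 1 → ∃ u : Wˣ, ((u : W) : Ω) = x := by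
    intro x hx
    have hx0 : x ≠ 0 := by
      rintro rfl
      rw [map_zero] at hx
      exact zero_ne_one hx
    have h1 : x ∈ W := (W.valuation_le_one_iff x).1 hx.le
    have h2 : x⁻¹ ∈ W := (W.valuation_le_one_iff _).1 (by rw [map_inv₀, hx, inv_one])
    exact ⟨⟨⟨x, h1⟩, ⟨x⁻¹, h2⟩, Subtype.ext (mul_inv_cancel₀ hx0),
      Subtype.ext (inv_mul_cancel₀ hx0)⟩, rfl⟩
  choose u hu using fun j => hunit (z j) (hvz j)
  let ιC : ℂ →+* W := (algebraMap ℂ Ω).codRestrict W.toSubring
    (fun c => (W.valuation_le_one_iff _).1 (hconst c))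
  let ρ : W →+* IsLocalRing.ResidueField W := IsLocalRing.residue W
  let _ : Algebra ℂ (IsLocalRing.ResidueField W) := (ρ.comp ιC).toAlgebra
  have halgmap : ∀ c : ℂ, algebraMap ℂ (IsLocalRing.ResidueField W) c = ρ (ιC c) := fun _ => rfl
  have hρne : ∀ v : Wˣ, ρ (v : W) ≠ 0 := fun v =>
    ((Units.map (ρ : W →* IsLocalRing.ResidueField W) v)).ne_zero
  -- the residues of the elements of `ℂ[y]`
  have hres : ∀ t : MvPolynomial T ℂ, ∃ w : W, (w : Ω) = aeval y t ∧
      ρ w = algebraMap ℂ (IsLocalRing.ResidueField W) (eval ζ t) := by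
    intro t
    refine ⟨⟨aeval y t, (W.valuation_le_one_iff _).1 (hW1 t)⟩, rfl, ?_⟩
    have h3 : W.valuation (aeval y (t - C (eval ζ t) : MvPolynomial T ℂ)) < 1 :=
      hW2 _ (by simp)
    rw [halgmap, ← sub_eq_zero, ← map_sub]
    refine (IsLocalRing.residue_eq_zero_iff _).2 ?_
    rw [ValuationSubring.valuation_lt_one_iff]
    convert h3 using 2
    rw [map_sub, aeval_C]
    rfl
  choose ω hω1 hω2 using hres
  -- the residues of the coordinates are algebraic over `ℂ`
  have hC : ∀ j, ∃ c : ℂ, algebraMap ℂ (IsLocalRing.ResidueField W) c = ρ (u j : W) := by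
    intro j
    choose t ht using hpt j
    let P : Polynomial ℂ := ∑ k ∈ Finset.range ((p j).natDegree + 1),
      Polynomial.monomial k (eval ζ (t k))
    have hPcoeff : P.coeff 0 = eval ζ (t 0) := by
      simp only [P, Polynomial.finsetSum_coeff, Polynomial.coeff_monomial]
      rw [Finset.sum_eq_single 0]
      · simp
      · intro k _ hk
        rw [if_neg hk]
      · intro hk
        simp at hk
    have hinjy : ∀ a b : MvPolynomial T ℂ, aeval y a = aeval y b → a = b := fun a b hab => hT hab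
    have hP0 : P ≠ 0 := by
      intro h0
      have h1 : t 0 = r j := hinjy _ _ (by rw [← ht 0, hpr])
      rw [h0, Polynomial.coeff_zero, h1] at hPcoeff
      exact (hζr j).1 hPcoeff.symm
    have hroot : Polynomial.aeval (ρ (u j : W)) P = 0 := by
      have h1 : ∑ k ∈ Finset.range ((p j).natDegree + 1), ω (t k) * (u j : W) ^ k = 0 := by
        apply Subtype.ext
        have h2 := hpz j
        rw [Polynomial.eval_eq_sum_range] at h2
        change W.subtype (∑ k ∈ Finset.range ((p j).natDegree + 1), ω (t k) * (u j : W) ^ k) = 0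
        rw [map_sum, ← h2]
        refine Finset.sum_congr rfl fun k _ => ?_
        rw [map_mul, map_pow]
        change ((ω (t k) : W) : Ω) * ((u j : W) : Ω) ^ k = _
        rw [hω1, hu, ht k]
      have h3 := congrArg ρ h1
      rw [map_sum, map_zero] at h3
      rw [← h3]
      simp only [P, map_sum, Polynomial.aeval_monomial]
      refine Finset.sum_congr rfl fun k _ => ?_
      rw [map_mul, map_pow, hω2]
    have hint : IsIntegral ℂ (ρ (u j : W)) := by
      have : IsAlgebraic ℂ (ρ (u j : W)) := ⟨P, hP0, hroot⟩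
      exact this.isIntegral
    have hdeg : (minpoly ℂ (ρ (u j : W))).degree = 1 :=
      IsAlgClosed.degree_eq_one_of_irreducible ℂ (minpoly.irreducible hint)
    exact minpoly.mem_range_of_degree_eq_one ℂ _ hdeg
  choose c hc using hC
  refine ⟨c, fun j h0 => ?_, fun f hf => ?_, fun j hj => ?_⟩
  · have h1 := hc j
    rw [h0, map_zero] at h1
    exact hρne (u j) h1.symm
  · have h1 : eval₂ ιC (fun j => (u j : W)) f = 0 := by
      apply Subtype.ext
      change W.subtype (eval₂ ιC (fun j => (u j : W)) f) = 0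
      rw [eval₂_comp_left]
      rw [aeval_def] at hf
      rw [← hf]
      congr 1
      funext j
      exact hu j
    have h2 : algebraMap ℂ (IsLocalRing.ResidueField W) (eval c f) = 0 := by
      have h3 := congrArg ρ h1
      rw [map_zero, eval₂_comp_left] at h3
      rw [← h3, eval, coe_eval₂Hom, eval₂_comp_left]
      congr 1
      funext j
      exact hc j
    exact (map_eq_zero_iff _ (algebraMap ℂ (IsLocalRing.ResidueField W)).injective).1 h2
  · obtain ⟨m, hm, h1⟩ := hζ ⟨j, hj⟩
    refine ⟨m, hm, ?_⟩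
    have h2 : c j = ζ ⟨j, hj⟩ := by
      apply (algebraMap ℂ (IsLocalRing.ResidueField W)).injective
      rw [hc j]
      have h3 := hω2 (X ⟨j, hj⟩)
      rw [eval_X] at h3
      rw [← h3]
      congr 1
      apply Subtype.ext
      rw [hω1, aeval_X, hu]
    rw [h2]
    exact h1

end Pool.Agent.TH526.ZT
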