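import Pool.Agent.TH526.ZT.B
import Pool.Agent.H173R3.ZT.Gam
import Pool.Agent.Results.MP_b7926e_nt.NoAtypical

/-!
If a translate of a variety has an atypical intersection then the vectors of the translation at `t`
of the places are near to a hyperplane (helper file).
-/

set_option autoImplicit false

namespace Pool.Agent.TH526.ZT

open MvPolynomial Pool.Agent.H173R3.ZT
open Pool.Agent.Results.MP_b7926e_nt.NoAtypical (coset idealOf dim mem_idealOf)

/-- the translate of `V` by `g` -/
def tl {n : ℕ} (g : Fin n → ℂ) (V : Set (Fin n → ℂ)) : Set (Fin n → ℂ) :=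
  {y | ∃ x ∈ V, ∀ i, y i = g i * x i}

/-- Specialisation of an irreducible set of points on a coset. -/
theorem exists_special {n : ℕ} (A : Set (Fin n → ℂ)) (hA : (idealOf A).IsPrime)
    (M : Submodule ℤ (Fin n → ℤ)) (η : Fin n → ℂ) (hη : ∀ j, η j ≠ 0) (hAT : A ⊆ coset M η) :
    ∃ y : Fin n → ℂ, (∀ j, y j ≠ 0) ∧ (∀ f ∈ idealOf A, eval y f = 0) ∧
      ∃ Λ : Submodule ℤ (Fin n → ℤ), dim A + (Module.finrank ℤ M : Cardinal) ≤
        (Module.finrank ℤ Λ : Cardinal) ∧
        ∀ a ∈ Λ, ∃ m : ℕ, 0 < m ∧ (chr y a / chr η a) ^ m = 1 := by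
  classical
  set Q := idealOf A with hQ
  have hne : A.Nonempty := by
    rw [Set.nonempty_iff_ne_empty]
    rintro rfl
    apply hA.ne_top
    rw [hQ, Ideal.eq_top_iff_one, mem_idealOf]
    intro x hx
    exact absurd hx (Set.notMem_empty x)
  let B := MvPolynomial (Fin n) ℂ ⧸ Q
  let Ω := FractionRing B
  let ev : MvPolynomial (Fin n) ℂ →ₐ[ℂ] Ω :=
    (IsScalarTower.toAlgHom ℂ B Ω).comp (Ideal.Quotient.mkₐ ℂ Q)
  have hev : ∀ f, ev f = 0 ↔ f ∈ Q := by
    intro f
    change algebraMap B Ω (Ideal.Quotient.mk Q f) = 0 ↔ _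
    rw [← Ideal.Quotient.eq_zero_iff_mem]
    exact map_eq_zero_iff _ (IsFractionRing.injective B Ω)
  set z : Fin n → Ω := fun j => ev (X j) with hzdef
  have hevz : ∀ f, ev f = aeval z f := by
    intro f
    have h1 : ev = aeval z := by
      ext j
      simp [hzdef]
    rw [h1]
  have hz0 : ∀ j, z j ≠ 0 := by
    intro j h0
    rw [hzdef] at h0
    have h1 := (hev (X j)).1 h0
    rw [hQ, mem_idealOf] at h1
    obtain ⟨x, hx⟩ := hne
    have h2 := h1 x hx
    rw [eval_X] at h2
    exact (hAT hx).1 j h2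
  have hzL : ∀ a ∈ M, chr z a = algebraMap ℂ Ω (chr η a) := by
    intro a ha
    set ε : ℂ := ∏ i, η i ^ a i with hε
    have h1 : (∏ i, X i ^ (a i).toNat - C ε * ∏ i, X i ^ (-a i).toNat :
        MvPolynomial (Fin n) ℂ) ∈ Q := by
      rw [hQ, mem_idealOf]
      intro x hx
      obtain ⟨hx0, hx1⟩ := hAT hx
      have h2 := hx1 a ha
      have h3 : (∏ i, x i ^ (a i).toNat) = ε * ∏ i, x i ^ (-a i).toNat := by
        rw [hε, ← h2, ← Finset.prod_mul_distrib]
        refine Finset.prod_congr rfl fun i _ => ?_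
        rw [← zpow_natCast, ← zpow_natCast, ← zpow_add₀ (hx0 i)]
        congr 1
        omega
      simp only [map_sub, map_mul, map_prod, map_pow, eval_X, eval_C]
      rw [h3, sub_self]
    have e1 : ∀ k : Fin n → ℕ, ev (∏ i, X i ^ k i) = ∏ i, z i ^ k i := fun k => by
      rw [map_prod]
      exact Finset.prod_congr rfl fun i _ => map_pow _ _ _
    have h4 := (hev _).2 h1
    rw [map_sub, sub_eq_zero, map_mul, e1, e1] at h4
    have h6 : ev (C ε) = algebraMap ℂ Ω ε := by
      rw [← algebraMap_eq, AlgHom.commutes]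
    rw [h6] at h4
    have h7 : chr z a * ∏ i, z i ^ (-a i).toNat = ∏ i, z i ^ (a i).toNat := by
      rw [chr, ← Finset.prod_mul_distrib]
      refine Finset.prod_congr rfl fun i _ => ?_
      rw [← zpow_natCast, ← zpow_natCast, ← zpow_add₀ (hz0 i)]
      congr 1
      omega
    have h8 : (∏ i, z i ^ (-a i).toNat) ≠ 0 :=
      Finset.prod_ne_zero_iff.2 fun i _ => pow_ne_zero _ (hz0 i)
    exact mul_right_cancel₀ h8 (h7.trans h4)
  -- a transcendence basis among the coordinates
  have hadj : ∀ f : B, algebraMap B Ω f ∈ Algebra.adjoin ℂ (Set.range z) := by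
    intro f
    obtain ⟨f, rfl⟩ := Ideal.Quotient.mk_surjective f
    have h1 : algebraMap B Ω (Ideal.Quotient.mk Q f) = aeval z f := hevz f
    rw [h1, Algebra.adjoin_range_eq_range_aeval]
    exact ⟨f, rfl⟩
  have halg : Algebra.IsAlgebraic (Algebra.adjoin ℂ (Set.range z)) Ω := by
    refine ⟨fun ω => ?_⟩
    obtain ⟨p, q, hq, rfl⟩ := IsFractionRing.div_surjective (A := B) ω
    rw [div_eq_mul_inv]
    have hp' : IsAlgebraic (Algebra.adjoin ℂ (Set.range z)) (algebraMap B Ω p) :=
      isAlgebraic_algebraMap (⟨_, hadj p⟩ : Algebra.adjoin ℂ (Set.range z))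
    have hq' : IsAlgebraic (Algebra.adjoin ℂ (Set.range z)) (algebraMap B Ω q) :=
      isAlgebraic_algebraMap (⟨_, hadj q⟩ : Algebra.adjoin ℂ (Set.range z))
    exact hp'.mul hq'.inv
  obtain ⟨t, hts, ht⟩ := exists_isTranscendenceBasis_subset (R := ℂ) (Set.range z)
  have hc : ∀ e : t, ∃ j, z j = e := fun e => hts e.2
  choose c hc using hc
  have hcinj : Function.Injective c := by
    intro e e' hee
    exact Subtype.ext (by rw [← hc e, ← hc e', hee])
  have htfin : Finite t := Finite.of_injective c hcinj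
  have : Fintype t := Fintype.ofFinite t
  set T : Finset (Fin n) := Finset.univ.image c with hT
  have hTt : ∀ j : T, ∃ e : t, c e = j := by
    rintro ⟨j, hj⟩
    obtain ⟨e, -, he⟩ := Finset.mem_image.1 hj
    exact ⟨e, he⟩
  choose φ hφ using hTt
  have hφinj : Function.Injective φ := by
    intro j j' hjj
    exact Subtype.ext (by rw [← hφ j, ← hφ j', hjj])
  have hzφ : (fun j : T => z j) = (fun e : t => (e : Ω)) ∘ φ := by
    funext j
    simp only [Function.comp_apply]
    rw [← hc (φ j), hφ j]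
  have hTind : AlgebraicIndependent ℂ (fun j : T => z j) := by
    rw [hzφ]
    exact ht.1.comp φ hφinj
  have hTrange : Set.range (fun j : T => z j) = Set.range (fun e : t => (e : Ω)) := by
    ext w
    constructor
    · rintro ⟨j, rfl⟩
      exact ⟨φ j, (congrFun hzφ j).symm⟩
    · rintro ⟨e, rfl⟩
      refine ⟨⟨c e, Finset.mem_image_of_mem c (Finset.mem_univ e)⟩, hc e⟩
  have hTalg : ∀ j, IsAlgebraic (Algebra.adjoin ℂ (Set.range fun j : T => z j)) (z j) := by
    intro j
    rw [hTrange]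
    exact ht.isAlgebraic.isAlgebraic (z j)
  obtain ⟨y, hy0, hyf, hyT⟩ := exists_point Ω z hz0 T hTind hTalg η hη
  have hyη : ∀ j, y j / η j ≠ 0 := fun j => div_ne_zero (hy0 j) (hη j)
  have hchr : ∀ a, chr (fun j => y j / η j) a = chr y a / chr η a := by
    intro a
    rw [chr, chr, chr, ← Finset.prod_div_distrib]
    exact Finset.prod_congr rfl fun j _ => div_zpow _ _ _
  have hyA : ∀ f ∈ idealOf A, eval y f = 0 := fun f hf => hyf f (by rw [← hevz]; exact (hev f).2 hf)
  refine ⟨y, hy0, hyA, torLat (fun j => y j / η j) hyη, ?_, ?_⟩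
  · have hkey := finrank_add_card_G z hz0 T hTind M
      (fun a ha => ⟨1, one_pos, chr η a, by rw [pow_one]; exact hzL a ha⟩)
      (torLat (fun j => y j / η j) hyη) ?_ ?_
    · have hdimA : dim A ≤ (T.card : Cardinal) := by
        have h1 : dim A ≤ Algebra.trdeg ℂ Ω :=
          trdeg_le_of_injective (IsScalarTower.toAlgHom ℂ B Ω) (IsFractionRing.injective B Ω)
        refine h1.trans (le_of_eq ?_)
        rw [← ht.cardinalMk_eq_trdeg, Cardinal.mk_fintype, hT,
          Finset.card_image_of_injective _ hcinj, Finset.card_univ]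
      calc dim A + (Module.finrank ℤ M : Cardinal)
          ≤ (T.card : Cardinal) + (Module.finrank ℤ M : Cardinal) := by gcongr
        _ = ((Module.finrank ℤ M + T.card : ℕ) : Cardinal) := by push_cast; rw [add_comm]
        _ ≤ _ := by exact_mod_cast hkey
    · intro a ha
      refine ⟨1, one_pos, ?_⟩
      rw [pow_one, hchr]
      have h1 : (∏ i, X i ^ (a i).toNat - C (chr η a) * ∏ i, X i ^ (-a i).toNat :
          MvPolynomial (Fin n) ℂ) ∈ idealOf A := by
        rw [mem_idealOf]
        intro x hx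
        obtain ⟨hx0, hx1⟩ := hAT hx
        have h2 := hx1 a ha
        have h3 : (∏ i, x i ^ (a i).toNat) = chr η a * ∏ i, x i ^ (-a i).toNat := by
          rw [chr, ← h2, ← Finset.prod_mul_distrib]
          refine Finset.prod_congr rfl fun i _ => ?_
          rw [← zpow_natCast, ← zpow_natCast, ← zpow_add₀ (hx0 i)]
          congr 1
          omega
        simp only [map_sub, map_mul, map_prod, map_pow, eval_X, eval_C]
        rw [h3, sub_self]
      have h2 := hyA _ h1
      simp only [map_sub, map_mul, map_prod, map_pow, eval_X, eval_C] at h2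
      have h7 : chr y a * ∏ i, y i ^ (-a i).toNat = ∏ i, y i ^ (a i).toNat := by
        rw [chr, ← Finset.prod_mul_distrib]
        refine Finset.prod_congr rfl fun i _ => ?_
        rw [← zpow_natCast, ← zpow_natCast, ← zpow_add₀ (hy0 i)]
        congr 1
        omega
      have h8 : (∏ i, y i ^ (-a i).toNat) ≠ 0 :=
        Finset.prod_ne_zero_iff.2 fun i _ => pow_ne_zero _ (hy0 i)
      have h9 : chr y a = chr η a := mul_right_cancel₀ h8 (h7.trans (sub_eq_zero.1 h2))
      rw [h9, div_self (chr_ne_zero hη a)]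
    · intro j hj
      obtain ⟨m, hm, h1⟩ := hyT j hj
      refine ⟨m, hm, ?_⟩
      rw [chr_single]
      exact h1
  · rintro a ⟨m, hm, h1⟩
    exact ⟨m, hm, by rw [← hchr]; exact h1⟩

/-- **The criterion.** -/
theorem criterion (n : ℕ) (V : Set (Fin n → ℂ)) (hprime : (idealOf V).IsPrime) :
    ∃ K : ℕ, ∀ N t : ℕ, K * t < N → ∀ v : Fin N → AbsoluteValue ℂ ℝ,
      ∀ B : ℝ, ∃ B' : ℝ, 0 ≤ B' ∧ ∀ g : Fin n → ℂ, (∀ j, g j ≠ 0) →
        ∀ (M : Submodule ℤ (Fin n → ℤ)) (η : Fin n → ℂ), (∀ j, η j ≠ 0) →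
          (∀ i j, |Real.log (v i (η j))| ≤ B) → ∀ A ⊆ tl g V, A ⊆ coset M η →
            (idealOf A).IsPrime → dim V < dim A + (Module.finrank ℤ M : Cardinal) →
            ∃ T : Finset (Fin N), T.card = t ∧ ∃ φ : Fin n → ℝ, ‖φ‖ = 1 ∧
              ∀ i ∈ T, |∑ j, φ j * Real.log (v i (g j))| ≤ B' := by
  classical
  have hfin : Algebra.trdeg ℂ (MvPolynomial (Fin n) ℂ ⧸ idealOf V) < Cardinal.aleph0 :=
    trdeg_lt_aleph0_of_finiteType
  obtain ⟨d, hd⟩ := Cardinal.lt_aleph0.1 hfin
  choose f hfP hf0 hfJ using fun J : {J : Finset (Fin n) // J.card = d + 1} =>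
    exists_dep (idealOf V) hd J.1 J.2
  refine ⟨(Fintype.piFinset fun J => (f J).support ×ˢ (f J).support).card,
    fun N t hN v B => ?_⟩
  obtain ⟨B', hB', hmain⟩ := core d f hf0 hfJ N t hN v (max B 0) (le_max_right _ _)
  refine ⟨B', hB', fun g hg M η hη hηB A hAV hAT hA hdim => ?_⟩
  obtain ⟨y, hy0, hyA, Λ, hΛr, hΛ⟩ := exists_special A hA M η hη hAT
  set x : Fin n → ℂ := fun j => (g j)⁻¹ * y j with hx
  have hx0 : ∀ j, x j ≠ 0 := fun j => mul_ne_zero (inv_ne_zero (hg j)) (hy0 j)
  have hxI : ∀ p ∈ idealOf V, eval x p = 0 := by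
    intro p hp
    rw [mem_idealOf] at hp
    have h1 : (aeval (fun i => C (g i)⁻¹ * X i : Fin n → MvPolynomial (Fin n) ℂ) p) ∈
        idealOf A := by
      rw [mem_idealOf]
      intro w hw
      obtain ⟨w', hw', hww⟩ := hAV hw
      have h2 : eval w (aeval (fun i => C (g i)⁻¹ * X i : Fin n → MvPolynomial (Fin n) ℂ) p) =
          eval w' p := by
        rw [← aeval_eq_eval, ← aeval_eq_eval]
        have h3 : (aeval w).comp (aeval fun i => C (g i)⁻¹ * X i) =
            (aeval w' : MvPolynomial (Fin n) ℂ →ₐ[ℂ] ℂ) := by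
          ext i
          simp [hww i, hg i]
        exact DFunLike.congr_fun h3 p
      rw [h2]
      exact hp w' hw'
    have h4 := hyA _ h1
    have h5 : eval y (aeval (fun i => C (g i)⁻¹ * X i : Fin n → MvPolynomial (Fin n) ℂ) p) =
        eval x p := by
      rw [← aeval_eq_eval, ← aeval_eq_eval]
      have h3 : (aeval y).comp (aeval fun i => C (g i)⁻¹ * X i) =
          (aeval x : MvPolynomial (Fin n) ℂ →ₐ[ℂ] ℂ) := by
        ext i
        simp [hx]
      exact DFunLike.congr_fun h3 p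
    rw [← h5]
    exact h4
  have hgx : (fun j => g j * x j) = y := by
    funext j
    rw [hx]
    exact mul_inv_cancel_left₀ (hg j) _
  refine hmain x g η hx0 hg hη (fun J => hxI _ (hfP J))
    (fun i j => (hηB i j).trans (le_max_left _ _)) Λ ?_ ?_
  · have h1 : (d : Cardinal) < (Module.finrank ℤ Λ : Cardinal) := by
      rw [← hd]
      exact hdim.trans_le hΛr
    have h2 : d < Module.finrank ℤ Λ := by exact_mod_cast h1
    omega
  · intro a ha i
    rw [hgx]
    obtain ⟨m, hm, h1⟩ := hΛ a ha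
    have h2 := congrArg (v i) h1
    rw [map_pow, map_one, map_div₀] at h2
    have h3 : v i (chr y a) / v i (chr η a) = 1 :=
      (pow_eq_one_iff_of_nonneg (div_nonneg ((v i).nonneg _) ((v i).nonneg _)) hm.ne').1 h2
    exact (div_eq_one_iff_eq ((v i).ne_zero (chr_ne_zero hη a))).1 h3

end Pool.Agent.TH526.ZT
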