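import Pool.Agent.TH526.ZT.C
import Pool.Agent.H936R2.Crit2

/-!
Cones of translates in general position, and the `p`-adic absolute values of `ℂ` (helper file).
-/

set_option autoImplicit false

namespace Pool.Agent.TH526.ZT

open MvPolynomial Pool.Agent.H173R3.ZT
open Pool.Agent.Results.MP_b7926e_nt.NoAtypical (coset idealOf dim mem_idealOf)

/-- the scaling of the variables by `g` -/
noncomputable def scl {n : ℕ} (g : Fin n → ℂ) :
    MvPolynomial (Fin n) ℂ →ₐ[ℂ] MvPolynomial (Fin n) ℂ :=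
  aeval fun i => C (g i) * X i

theorem eval_scl {n : ℕ} (g : Fin n → ℂ) (f : MvPolynomial (Fin n) ℂ) (x : Fin n → ℂ) :
    eval x (scl g f) = eval (fun i => g i * x i) f := by
  rw [scl, ← aeval_eq_eval, ← aeval_eq_eval]
  have h : (aeval x).comp (aeval fun i => C (g i) * X i :
      MvPolynomial (Fin n) ℂ →ₐ[ℂ] MvPolynomial (Fin n) ℂ) =
      aeval (fun i => g i * x i) := by
    ext i
    simp
  exact DFunLike.congr_fun h f

theorem dim_le_dim_tl {n : ℕ} (g : Fin n → ℂ) (hg : ∀ i, g i ≠ 0) (V : Set (Fin n → ℂ)) :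
    dim V ≤ dim (tl g V) := by
  have h1 : ∀ f ∈ idealOf (tl g V), scl g f ∈ idealOf V := by
    intro f hf
    rw [mem_idealOf] at hf ⊢
    intro x hx
    rw [eval_scl]
    exact hf _ ⟨x, hx, fun i => rfl⟩
  let φ : (MvPolynomial (Fin n) ℂ ⧸ idealOf (tl g V)) →ₐ[ℂ]
      (MvPolynomial (Fin n) ℂ ⧸ idealOf V) :=
    Ideal.Quotient.liftₐ _ ((Ideal.Quotient.mkₐ ℂ (idealOf V)).comp (scl g))
      (fun f hf => Ideal.Quotient.eq_zero_iff_mem.2 (h1 f hf))
  have hφ : Function.Surjective φ := by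
    intro y
    obtain ⟨f, rfl⟩ := Ideal.Quotient.mk_surjective y
    refine ⟨Ideal.Quotient.mk _ (scl (fun i => (g i)⁻¹) f), ?_⟩
    change Ideal.Quotient.mk _ (scl g (scl (fun i => (g i)⁻¹) f)) = _
    congr 1
    have h2 : (scl g).comp (scl (fun i => (g i)⁻¹)) = AlgHom.id ℂ _ := by
      ext1 i
      simp only [AlgHom.comp_apply, aeval_X, map_mul, scl, AlgHom.id_apply]
      rw [algHom_C, algebraMap_eq, ← mul_assoc, ← C_mul, inv_mul_cancel₀ (hg i), C_1, one_mul]
    exact DFunLike.congr_fun h2 f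
  exact trdeg_le_of_surjective φ hφ

/-- A family which spans `ℝ^n` is not orthogonal to a nonzero vector. -/
theorem eq_zero_of_orth {n : ℕ} {κ : Type*}
    (w : κ → Fin n → ℝ) (hspan : Submodule.span ℝ (Set.range w) = ⊤) (φ : Fin n → ℝ)
    (h : ∀ i, ∑ j, φ j * w i j = 0) : φ = 0 := by
  classical
  have h1 : ∀ x ∈ Submodule.span ℝ (Set.range w), ∑ j, φ j * x j = 0 := by
    intro x hx
    induction hx using Submodule.span_induction with
    | mem y hy =>
      obtain ⟨i, rfl⟩ := hy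
      exact h i
    | zero => simp
    | add y z _ _ hy hz =>
      simp only [Pi.add_apply, mul_add, Finset.sum_add_distrib, hy, hz, add_zero]
    | smul a y _ hy =>
      have : ∀ j, φ j * (a • y) j = a * (φ j * y j) := fun j => by
        rw [Pi.smul_apply, smul_eq_mul]
        ring
      simp only [this, ← Finset.mul_sum, hy, mul_zero]
  funext k
  have h2 := h1 (Pi.single k 1) (by rw [hspan]; trivial)
  rw [Finset.sum_eq_single k] at h2
  · simpa using h2
  · intro j _ hj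
    rw [Pi.single_eq_of_ne hj, mul_zero]
  · intro hk
    exact absurd (Finset.mem_univ k) hk

/-- rational vectors which span, multiplied by nonzero real numbers -/
theorem span_real {n : ℕ} {κ : Type*} (u : κ → Fin n → ℚ)
    (hu : Submodule.span ℚ (Set.range u) = ⊤) (c : κ → ℝ) (hc : ∀ i, c i ≠ 0) :
    Submodule.span ℝ (Set.range fun (i : κ) (j : Fin n) => c i * (u i j : ℝ)) = ⊤ := by
  classical
  have h1 : ∀ x ∈ Submodule.span ℚ (Set.range u), (fun j => (x j : ℝ)) ∈
      Submodule.span ℝ (Set.range fun (i : κ) (j : Fin n) => c i * (u i j : ℝ)) := by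
    intro x hx
    induction hx using Submodule.span_induction with
    | mem y hy =>
      obtain ⟨i, rfl⟩ := hy
      have h2 : (fun j => (u i j : ℝ)) = (c i)⁻¹ • fun j => c i * (u i j : ℝ) := by
        funext j
        rw [Pi.smul_apply, smul_eq_mul, inv_mul_cancel_left₀ (hc i)]
      rw [h2]
      exact Submodule.smul_mem _ _ (Submodule.subset_span ⟨i, rfl⟩)
    | zero =>
      have : (fun j : Fin n => (((0 : Fin n → ℚ) j : ℚ) : ℝ)) = 0 := by
        funext j
        simp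
      rw [this]
      exact Submodule.zero_mem _
    | add y z _ _ hy hz =>
      have : (fun j : Fin n => (((y + z : Fin n → ℚ) j : ℚ) : ℝ)) =
          (fun j => (y j : ℝ)) + fun j => (z j : ℝ) := by
        funext j
        simp
      rw [this]
      exact Submodule.add_mem _ hy hz
    | smul a y _ hy =>
      have : (fun j : Fin n => (((a • y : Fin n → ℚ) j : ℚ) : ℝ)) =
          (a : ℝ) • fun j => (y j : ℝ) := by
        funext j
        simp
      rw [this]
      exact Submodule.smul_mem _ _ hy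
  rw [eq_top_iff]
  intro x _
  have h3 : x = ∑ j, x j • (fun k => (((Pi.single j (1 : ℚ) : Fin n → ℚ) k : ℚ) : ℝ)) := by
    funext k
    rw [Finset.sum_apply, Finset.sum_eq_single k]
    · simp
    · intro j _ hj
      rw [Pi.smul_apply, Pi.single_eq_of_ne hj.symm, Rat.cast_zero, smul_zero]
    · intro hk
      exact absurd (Finset.mem_univ k) hk
  rw [h3]
  exact Submodule.sum_mem _ fun j _ => Submodule.smul_mem _ _ (h1 _ (by rw [hu]; trivial))

theorem cone_bound {n r N : ℕ} (t : ℕ) (w : Fin r → Fin N → Fin n → ℝ) (C : Set (Fin r → ℝ))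
    (hC : IsClosed C) (hcone : ∀ m ∈ C, ∀ t : ℝ, 0 < t → t • m ∈ C)
    (hgen : ∀ m ∈ C, m ≠ 0 → ∀ T : Finset (Fin N), T.card = t →
      Submodule.span ℝ (Set.range fun (i : T) (j : Fin n) => ∑ k, m k * w k i j) = ⊤) (B : ℝ) :
    ∃ R : ℝ, ∀ m ∈ C, ∀ T : Finset (Fin N), T.card = t → ∀ φ : Fin n → ℝ, ‖φ‖ = 1 →
      (∀ i ∈ T, |∑ j, φ j * ∑ k, m k * w k i j| ≤ B) → ‖m‖ ≤ R := by
  classical
  let F : Finset (Fin N) → (Fin r → ℝ) × (Fin n → ℝ) → ℝ := fun T z =>
    ∑ i ∈ T, |∑ j, z.2 j * ∑ k, z.1 k * w k i j|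
  have hF : ∀ T, Continuous (F T) := by
    intro T
    refine continuous_finsetSum _ fun i _ => ?_
    refine Continuous.abs ?_
    refine continuous_finsetSum _ fun j _ => ?_
    refine Continuous.mul ?_ ?_
    · exact (continuous_apply j).comp continuous_snd
    · refine continuous_finsetSum _ fun k _ => ?_
      exact ((continuous_apply k).comp continuous_fst).mul continuous_const
  have hone : ∀ T : Finset (Fin N), T.card = t → ∃ c : ℝ, 0 < c ∧
      ∀ m ∈ C, ∀ φ : Fin n → ℝ, ‖m‖ = 1 → ‖φ‖ = 1 → c ≤ F T (m, φ) := by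
    intro T hT
    let K : Set ((Fin r → ℝ) × (Fin n → ℝ)) :=
      (C ∩ Metric.sphere 0 1) ×ˢ Metric.sphere 0 1
    have hK : IsCompact K :=
      ((isCompact_sphere _ _).inter_left hC).prod (isCompact_sphere _ _)
    by_cases hne : K.Nonempty
    · obtain ⟨z, hz, hmin⟩ := hK.exists_isMinOn hne (hF T).continuousOn
      refine ⟨F T z, ?_, fun m hm φ hm1 hφ1 => ?_⟩
      · obtain ⟨⟨hz1, hz2⟩, hz3⟩ := hz
        rw [mem_sphere_zero_iff_norm] at hz2 hz3
        have h0 : 0 ≤ F T z := Finset.sum_nonneg fun _ _ => abs_nonneg _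
        refine lt_of_le_of_ne h0 fun h => ?_
        have h1 : ∀ i ∈ T, |∑ j, z.2 j * ∑ k, z.1 k * w k i j| = 0 :=
          (Finset.sum_eq_zero_iff_of_nonneg fun _ _ => abs_nonneg _).1 h.symm
        have hz1' : z.1 ≠ 0 := by
          intro h2
          rw [h2, norm_zero] at hz2
          exact zero_ne_one hz2
        have h2 := eq_zero_of_orth
          (fun i : T => fun j => ∑ k, z.1 k * w k i j) (hgen z.1 hz1 hz1' T hT) z.2
          (fun i => abs_eq_zero.1 (h1 i i.2))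
        rw [h2, norm_zero] at hz3
        exact zero_ne_one hz3
      · exact hmin ⟨⟨hm, by rw [mem_sphere_zero_iff_norm]; exact hm1⟩,
          by rw [mem_sphere_zero_iff_norm]; exact hφ1⟩
    · refine ⟨1, one_pos, fun m hm φ hm1 hφ1 => ?_⟩
      exfalso
      exact hne ⟨(m, φ), ⟨hm, by rw [mem_sphere_zero_iff_norm]; exact hm1⟩,
        by rw [mem_sphere_zero_iff_norm]; exact hφ1⟩
  choose! c hc0 hc using hone
  let G : Finset (Finset (Fin N)) := Finset.univ.filter fun T => T.card = t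
  refine ⟨∑ T ∈ G, t * |B| / c T, fun m hm T hT φ hφ hB => ?_⟩
  have hterm : ∀ T ∈ G, 0 ≤ t * |B| / c T := fun T hT' =>
    div_nonneg (by positivity) (hc0 T (Finset.mem_filter.1 hT').2).le
  have hle : t * |B| / c T ≤ ∑ T ∈ G, t * |B| / c T :=
    Finset.single_le_sum (f := fun T => t * |B| / c T) hterm
      (Finset.mem_filter.2 ⟨Finset.mem_univ _, hT⟩)
  refine le_trans ?_ hle
  by_cases hm0 : m = 0
  · rw [hm0, norm_zero]
    exact hterm T (Finset.mem_filter.2 ⟨Finset.mem_univ _, hT⟩)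
  have hmn : 0 < ‖m‖ := norm_pos_iff.2 hm0
  have h1 := hc T hT (‖m‖⁻¹ • m) (hcone m hm _ (inv_pos.2 hmn)) φ
    (by rw [norm_smul, norm_inv, norm_norm, inv_mul_cancel₀ hmn.ne']) hφ
  have h2 : F T (‖m‖⁻¹ • m, φ) = ‖m‖⁻¹ * F T (m, φ) := by
    change ∑ i ∈ T, |∑ j, φ j * ∑ k, (‖m‖⁻¹ • m) k * w k i j| =
      ‖m‖⁻¹ * ∑ i ∈ T, |∑ j, φ j * ∑ k, m k * w k i j|
    rw [Finset.mul_sum]
    refine Finset.sum_congr rfl fun i _ => ?_
    rw [← abs_of_pos (inv_pos.2 hmn), ← abs_mul, Finset.mul_sum]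
    congr 1
    refine Finset.sum_congr rfl fun j _ => ?_
    rw [abs_of_pos (inv_pos.2 hmn)]
    simp only [Pi.smul_apply, smul_eq_mul, mul_assoc, ← Finset.mul_sum]
    ring
  have h3 : F T (m, φ) ≤ t * |B| := by
    calc F T (m, φ) ≤ ∑ _i ∈ T, |B| :=
          Finset.sum_le_sum fun i hi => (hB i hi).trans (le_abs_self B)
      _ = t * |B| := by rw [Finset.sum_const, hT, nsmul_eq_mul]
  rw [h2] at h1
  rw [le_div_iff₀ (hc0 T hT)]
  have h4 : ‖m‖ * c T ≤ F T (m, φ) := by
    calc ‖m‖ * c T ≤ ‖m‖ * (‖m‖⁻¹ * F T (m, φ)) := by gcongr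
      _ = F T (m, φ) := mul_inv_cancel_left₀ hmn.ne' _
  exact h4.trans h3

/-- the absolute value of `ℂ` induced by an embedding -/
noncomputable def pabs (p : ℕ) [Fact p.Prime] (τ : ℂ →+* PadicAlgCl p) : AbsoluteValue ℂ ℝ where
  toFun x := ‖τ x‖
  map_mul' x y := by rw [map_mul, norm_mul]
  nonneg' x := norm_nonneg _
  eq_zero' x := by rw [norm_eq_zero, map_eq_zero]
  add_le' x y := by
    rw [map_add]
    exact norm_add_le _ _

theorem pabs_nonarch (p : ℕ) [Fact p.Prime] (τ : ℂ →+* PadicAlgCl p) :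
    IsNonarchimedean (pabs p τ) := by
  intro x y
  change ‖τ (x + y)‖ ≤ max ‖τ x‖ ‖τ y‖
  rw [map_add]
  exact PadicAlgCl.isNonarchimedean p _ _

theorem log_pabs (p : ℕ) [hp : Fact p.Prime] (τ : ℂ →+* PadicAlgCl p) (q : ℚ) (hq : q ≠ 0) :
    Real.log (pabs p τ (q : ℂ)) = -(padicValRat p q : ℝ) * Real.log p := by
  change Real.log ‖τ (q : ℂ)‖ = _
  rw [map_ratCast]
  have h1 : ((q : ℚ) : PadicAlgCl p) = (((q : ℚ_[p])) : PadicAlgCl p) := by
    change ((q : ℚ) : PadicAlgCl p) = algebraMap ℚ_[p] (PadicAlgCl p) ((q : ℚ) : ℚ_[p])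
    rw [map_ratCast]
  rw [h1, PadicAlgCl.norm_extends, Padic.eq_padicNorm, padicNorm.eq_zpow_of_nonzero hq]
  push_cast
  rw [Real.log_zpow]
  push_cast
  ring

end Pool.Agent.TH526.ZT
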