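import Pool.Agent.TH526.ZT.D

/-!
Counting the integral matrices such that `t` of the rows are near to a hyperplane (helper file).
-/

set_option autoImplicit false

namespace Pool.Agent.TH526.ZT

/-- the integral vectors of size at most `R` -/
noncomputable def box (n R : ℕ) : Finset (Fin n → ℤ) := Fintype.piFinset fun _ => Finset.Icc (-(R : ℤ)) R

theorem mem_box {n R : ℕ} {w : Fin n → ℤ} : w ∈ box n R ↔ ∀ j, |w j| ≤ R := by
  rw [box, Fintype.mem_piFinset]
  refine forall_congr' fun j => ?_
  rw [Finset.mem_Icc, abs_le]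

theorem card_Icc' (R : ℕ) : (Finset.Icc (-(R : ℤ)) R).card = 2 * R + 1 := by
  rw [Int.card_Icc]
  omega

theorem card_box (n R : ℕ) : (box n R).card = (2 * R + 1) ^ n := by
  rw [box, Fintype.card_piFinset]
  simp only [card_Icc', Finset.prod_const, Finset.card_univ, Fintype.card_fin]

/-- the vectors of the box which are nearly orthogonal to `q` -/
noncomputable def slab (n R L : ℕ) (q : Fin n → ℤ) : Finset (Fin n → ℤ) :=
  (box n R).filter fun w => |∑ j, q j * w j| ≤ (R : ℤ) * L

/-- the vectors of the box with given coordinate `a` at `j₀` -/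
noncomputable def face (n R : ℕ) (j₀ : Fin n) (a : ℤ) : Finset (Fin n → ℤ) :=
  Fintype.piFinset fun j => if j = j₀ then {a} else Finset.Icc (-(R : ℤ)) R

theorem card_face (n R : ℕ) (j₀ : Fin n) (a : ℤ) : (face n R j₀ a).card = (2 * R + 1) ^ (n - 1) := by
  classical
  rw [face, Fintype.card_piFinset]
  have h1 : ∀ j, (if j = j₀ then ({a} : Finset ℤ) else Finset.Icc (-(R : ℤ)) R).card =
      if j = j₀ then 1 else 2 * R + 1 := by
    intro j
    split_ifs
    · exact Finset.card_singleton _
    · exact card_Icc' R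
  simp only [h1]
  rw [← Finset.mul_prod_erase Finset.univ _ (Finset.mem_univ j₀), if_pos rfl, one_mul]
  rw [Finset.prod_congr rfl (g := fun _ => 2 * R + 1) fun j hj => if_neg (Finset.ne_of_mem_erase hj)]
  rw [Finset.prod_const, Finset.card_erase_of_mem (Finset.mem_univ _), Finset.card_univ,
    Fintype.card_fin]

theorem card_slab (n R L : ℕ) (hR : 1 ≤ R) (j₀ : Fin n) (q : Fin n → ℤ) (hq : q j₀ = R) :
    (slab n R L q).card ≤ (4 * L + 1) * (2 * R + 1) ^ (n - 1) := by
  classical
  have h1 := Finset.card_le_mul_card_image (s := slab n R L q)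
    (f := fun w => Function.update w j₀ 0) (4 * L + 1) ?_
  · refine h1.trans (Nat.mul_le_mul_left _ ?_)
    rw [← card_face n R j₀ 0]
    refine Finset.card_le_card fun w hw => ?_
    obtain ⟨w', hw', rfl⟩ := Finset.mem_image.1 hw
    rw [face, Fintype.mem_piFinset]
    intro j
    by_cases hj : j = j₀
    · rw [if_pos hj, hj, Function.update_self]
      exact Finset.mem_singleton_self _
    · rw [if_neg hj, Function.update_of_ne hj, Finset.mem_Icc, ← abs_le]
      exact mem_box.1 (Finset.mem_filter.1 hw').1 j
  · intro w₁ _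
    rcases Finset.eq_empty_or_nonempty
      ((slab n R L q).filter fun w => Function.update w j₀ 0 = w₁) with he | ⟨w₀, hw₀⟩
    · rw [he, Finset.card_empty]
      exact Nat.zero_le _
    · have h2 : ((slab n R L q).filter fun w => Function.update w j₀ 0 = w₁).card ≤
          (Finset.Icc (w₀ j₀ - 2 * L) (w₀ j₀ + 2 * L)).card := by
        refine Finset.card_le_card_of_injOn (fun w => w j₀) ?_ ?_
        · intro w hw
          rw [Finset.mem_coe, Finset.mem_filter] at hw
          rw [Finset.mem_filter] at hw₀
          obtain ⟨hws, hwu⟩ := hw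
          obtain ⟨hws₀, hwu₀⟩ := hw₀
          have h3 : ∀ j, j ≠ j₀ → w j = w₀ j := by
            intro j hj
            have := congrFun (hwu.trans hwu₀.symm) j
            rwa [Function.update_of_ne hj, Function.update_of_ne hj] at this
          have h4 : ∑ j, q j * w j - ∑ j, q j * w₀ j = R * (w j₀ - w₀ j₀) := by
            rw [← Finset.sum_sub_distrib, Finset.sum_eq_single j₀]
            · rw [hq]
              ring
            · intro j _ hj
              rw [h3 j hj]
              ring
            · intro h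
              exact absurd (Finset.mem_univ _) h
          have h5 := (Finset.mem_filter.1 hws).2
          have h6 := (Finset.mem_filter.1 hws₀).2
          rw [abs_le] at h5 h6
          have hR' : (0 : ℤ) < R := by exact_mod_cast hR
          have h7 : (R : ℤ) * (w j₀ - w₀ j₀) ≤ R * (2 * L) := by linarith [h5.2, h6.1]
          have h8 : (R : ℤ) * (-(2 * L)) ≤ R * (w j₀ - w₀ j₀) := by linarith [h5.1, h6.2]
          have h9 := le_of_mul_le_mul_left h7 hR'
          have h10 := le_of_mul_le_mul_left h8 hR'
          rw [Finset.mem_coe, Finset.mem_Icc]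
          constructor <;> linarith
        · intro w hw w' hw' hww
          rw [Finset.mem_coe, Finset.mem_filter] at hw hw'
          funext j
          by_cases hj : j = j₀
          · rw [hj]
            exact hww
          · have := congrFun (hw.2.trans hw'.2.symm) j
            rwa [Function.update_of_ne hj, Function.update_of_ne hj] at this
      refine h2.trans (le_of_eq ?_)
      rw [Int.card_Icc]
      omega

/-- The integral matrices `e` of size at most `R` with `t` rows near to a hyperplane. -/
theorem count_bad (n N t : ℕ) (K : ℝ) :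
    ∃ c : ℕ, ∀ R : ℕ, 1 ≤ R → ∃ E : Finset (Fin N → Fin n → ℤ),
      E.card * (2 * R + 1) ^ t ≤ c * (2 * R + 1) ^ (n * N + n - 1) ∧
      ∀ e : Fin N → Fin n → ℤ, (∀ i j, |e i j| ≤ R) →
        (∃ T : Finset (Fin N), T.card = t ∧ ∃ φ : Fin n → ℝ, ‖φ‖ = 1 ∧
          ∀ i ∈ T, |∑ j, φ j * (e i j : ℝ)| ≤ K) → e ∈ E := by
  classical
  let L : ℕ := n + ⌈K⌉₊
  refine ⟨2 ^ N * n * (4 * L + 1) ^ t, fun R hR => ?_⟩
  let G : Finset (Finset (Fin N)) := Finset.univ.filter fun T => T.card = t
  let Eq : Finset (Fin N) → (Fin n → ℤ) → Finset (Fin N → Fin n → ℤ) := fun T q =>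
    Fintype.piFinset fun i => if i ∈ T then slab n R L q else box n R
  let E : Finset (Fin N → Fin n → ℤ) := G.biUnion fun T =>
    Finset.univ.biUnion fun j₀ : Fin n => (face n R j₀ R).biUnion fun q => Eq T q
  refine ⟨E, ?_, ?_⟩
  · -- the number of elements
    have h1 : ∀ T ∈ G, ∀ j₀ : Fin n, ∀ q ∈ face n R j₀ R,
        (Eq T q).card * (2 * R + 1) ^ (n - 1) * (2 * R + 1) ^ t ≤
          (4 * L + 1) ^ t * (2 * R + 1) ^ (n * N + n - 1) := by
      intro T hT j₀ q hq
      have hT' : T.card = t := (Finset.mem_filter.1 hT).2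
      have hq0 : q j₀ = R := by
        rw [face, Fintype.mem_piFinset] at hq
        have := hq j₀
        rwa [if_pos rfl, Finset.mem_singleton] at this
      have h2 : (Eq T q).card = (slab n R L q).card ^ t * ((2 * R + 1) ^ n) ^ (N - t) := by
        change (Fintype.piFinset fun i => if i ∈ T then slab n R L q else box n R).card = _
        rw [Fintype.card_piFinset]
        have h3 : ∀ i, (if i ∈ T then slab n R L q else box n R).card =
            if i ∈ T then (slab n R L q).card else (2 * R + 1) ^ n := by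
          intro i
          split_ifs
          · rfl
          · exact card_box n R
        simp only [h3]
        rw [Finset.prod_ite, Finset.prod_const, Finset.prod_const]
        congr 2
        · rw [Finset.filter_mem_eq_inter, Finset.univ_inter, hT']
        · have h4 : (Finset.univ.filter fun i => i ∉ T) = Tᶜ := by
            ext i
            simp
          rw [h4, Finset.card_compl, Fintype.card_fin, hT']
      have h5 := card_slab n R L hR j₀ q hq0
      have htN : t ≤ N := by
        rw [← hT']
        calc T.card ≤ (Finset.univ : Finset (Fin N)).card := Finset.card_le_univ T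
          _ = N := by rw [Finset.card_univ, Fintype.card_fin]
      obtain ⟨n', rfl⟩ : ∃ n', n = n' + 1 := ⟨n - 1, by have := j₀.2; omega⟩
      obtain ⟨N', rfl⟩ : ∃ N', N = t + N' := ⟨N - t, by omega⟩
      rw [h2]
      have h6 : t + N' - t = N' := by omega
      have h7 : (n' + 1) * (t + N') + (n' + 1) - 1 = n' * t + (n' + 1) * N' + n' + t := by
        have : (n' + 1) * (t + N') + (n' + 1) = n' * t + (n' + 1) * N' + n' + t + 1 := by ring
        omega
      rw [h6, h7]
      calc (slab (n' + 1) R L q).card ^ t * ((2 * R + 1) ^ (n' + 1)) ^ N' *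
            (2 * R + 1) ^ (n' + 1 - 1) * (2 * R + 1) ^ t
          ≤ ((4 * L + 1) * (2 * R + 1) ^ (n' + 1 - 1)) ^ t *
            ((2 * R + 1) ^ (n' + 1)) ^ N' * (2 * R + 1) ^ (n' + 1 - 1) * (2 * R + 1) ^ t := by
            gcongr
        _ = (4 * L + 1) ^ t * (2 * R + 1) ^ (n' * t + (n' + 1) * N' + n' + t) := by
          rw [Nat.add_sub_cancel, mul_pow, ← pow_mul, ← pow_mul, pow_add, pow_add, pow_add]
          ring
    have hGc : G.card ≤ 2 ^ N := by
      calc G.card ≤ (Finset.univ : Finset (Finset (Fin N))).card := Finset.card_le_card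
            (Finset.filter_subset _ _)
        _ = 2 ^ N := by rw [Finset.card_univ, Fintype.card_finset, Fintype.card_fin]
    have h3 : ∀ T ∈ G, ∀ j₀ : Fin n, ((face n R j₀ R).biUnion fun q => Eq T q).card *
        (2 * R + 1) ^ t ≤ (4 * L + 1) ^ t * (2 * R + 1) ^ (n * N + n - 1) := by
      intro T hT j₀
      have hpos : 0 < (2 * R + 1) ^ (n - 1) := by positivity
      refine le_of_mul_le_mul_right ?_ hpos
      calc ((face n R j₀ R).biUnion fun q => Eq T q).card * (2 * R + 1) ^ t *
            (2 * R + 1) ^ (n - 1)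
          ≤ (∑ q ∈ face n R j₀ R, (Eq T q).card) * (2 * R + 1) ^ t * (2 * R + 1) ^ (n - 1) := by
            gcongr
            exact Finset.card_biUnion_le
        _ = ∑ q ∈ face n R j₀ R, (Eq T q).card * (2 * R + 1) ^ (n - 1) * (2 * R + 1) ^ t := by
            rw [mul_assoc, Finset.sum_mul]
            refine Finset.sum_congr rfl fun q _ => ?_
            ring
        _ ≤ ∑ _q ∈ face n R j₀ R, (4 * L + 1) ^ t * (2 * R + 1) ^ (n * N + n - 1) :=
            Finset.sum_le_sum fun q hq => h1 T hT j₀ q hq
        _ = (4 * L + 1) ^ t * (2 * R + 1) ^ (n * N + n - 1) * (2 * R + 1) ^ (n - 1) := by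
            rw [Finset.sum_const, card_face, smul_eq_mul]
            ring
    calc E.card * (2 * R + 1) ^ t ≤ (∑ T ∈ G, (Finset.univ.biUnion fun j₀ : Fin n =>
          (face n R j₀ R).biUnion fun q => Eq T q).card) * (2 * R + 1) ^ t := by
          gcongr
          exact Finset.card_biUnion_le
      _ ≤ (∑ T ∈ G, ∑ j₀ : Fin n, ((face n R j₀ R).biUnion fun q => Eq T q).card) *
          (2 * R + 1) ^ t := by
          gcongr
          exact Finset.card_biUnion_le
      _ = ∑ T ∈ G, ∑ j₀ : Fin n, ((face n R j₀ R).biUnion fun q => Eq T q).card *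
          (2 * R + 1) ^ t := by simp only [Finset.sum_mul]
      _ ≤ ∑ _T ∈ G, ∑ _j₀ : Fin n, (4 * L + 1) ^ t * (2 * R + 1) ^ (n * N + n - 1) :=
          Finset.sum_le_sum fun T hT => Finset.sum_le_sum fun j₀ _ => h3 T hT j₀
      _ = G.card * (n * ((4 * L + 1) ^ t * (2 * R + 1) ^ (n * N + n - 1))) := by
          rw [Finset.sum_const, Finset.sum_const, Finset.card_univ, Fintype.card_fin, smul_eq_mul,
            smul_eq_mul]
      _ ≤ 2 ^ N * (n * ((4 * L + 1) ^ t * (2 * R + 1) ^ (n * N + n - 1))) :=
          Nat.mul_le_mul_right _ hGc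
      _ = 2 ^ N * n * (4 * L + 1) ^ t * (2 * R + 1) ^ (n * N + n - 1) := by ring
  · -- the bad matrices belong to `E`
    rintro e he ⟨T, hT, φ, hφ, hφK⟩
    -- the largest coordinate
    have hn : Nonempty (Fin n) := by
      by_contra hcon
      rw [not_nonempty_iff] at hcon
      have : φ = 0 := Subsingleton.elim _ _
      rw [this, norm_zero] at hφ
      exact zero_ne_one hφ
    obtain ⟨j₀, hj₀⟩ : ∃ j₀, ‖φ j₀‖ = 1 := by
      obtain ⟨j₀, hj₀⟩ := Finite.exists_max fun j => ‖φ j‖
      refine ⟨j₀, le_antisymm (hφ ▸ norm_le_pi_norm φ j₀) ?_⟩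
      rw [← hφ]
      exact (pi_norm_le_iff_of_nonneg (norm_nonneg _)).2 hj₀
    -- normalization
    obtain ⟨ψ, hψ1, hψ0, hψK⟩ : ∃ ψ : Fin n → ℝ, (∀ j, |ψ j| ≤ 1) ∧ ψ j₀ = 1 ∧
        ∀ i ∈ T, |∑ j, ψ j * (e i j : ℝ)| ≤ K := by
      have hle : ∀ j, |φ j| ≤ 1 := fun j => hφ ▸ norm_le_pi_norm φ j
      rcases abs_eq (zero_le_one) |>.1 (show |φ j₀| = 1 from hj₀) with h | h
      · exact ⟨φ, hle, h, hφK⟩
      · refine ⟨-φ, fun j => ?_, ?_, fun i hi => ?_⟩
        · rw [Pi.neg_apply, abs_neg]
          exact hle j
        · rw [Pi.neg_apply, h, neg_neg]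
        · have h1 : ∑ j, (-φ) j * (e i j : ℝ) = -∑ j, φ j * (e i j : ℝ) := by
            rw [← Finset.sum_neg_distrib]
            refine Finset.sum_congr rfl fun j _ => ?_
            rw [Pi.neg_apply, neg_mul]
          rw [h1, abs_neg]
          exact hφK i hi
    let q : Fin n → ℤ := fun j => ⌊(R : ℝ) * ψ j⌋
    have hR0 : (0 : ℝ) < R := by exact_mod_cast hR
    have hq0 : q j₀ = R := by
      change ⌊(R : ℝ) * ψ j₀⌋ = _
      rw [hψ0, mul_one]
      exact Int.floor_natCast R
    have hqle : ∀ j, |q j| ≤ R := by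
      intro j
      have h1 := abs_le.1 (hψ1 j)
      rw [abs_le]
      constructor
      · refine Int.le_floor.2 ?_
        push_cast
        nlinarith [h1.1]
      · have h2 : (⌊(R : ℝ) * ψ j⌋ : ℝ) ≤ R := (Int.floor_le _).trans (by nlinarith [h1.2])
        exact_mod_cast h2
    refine Finset.mem_biUnion.2 ⟨T, Finset.mem_filter.2 ⟨Finset.mem_univ _, hT⟩,
      Finset.mem_biUnion.2 ⟨j₀, Finset.mem_univ _, Finset.mem_biUnion.2 ⟨q, ?_, ?_⟩⟩⟩
    · rw [face, Fintype.mem_piFinset]
      intro j
      by_cases hj : j = j₀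
      · rw [if_pos hj, hj, hq0]
        exact Finset.mem_singleton_self _
      · rw [if_neg hj, Finset.mem_Icc, ← abs_le]
        exact hqle j
    · rw [Fintype.mem_piFinset]
      intro i
      by_cases hi : i ∈ T
      · rw [if_pos hi, slab, Finset.mem_filter]
        refine ⟨mem_box.2 (he i), ?_⟩
        have h1 : |∑ j, (q j : ℝ) * (e i j : ℝ)| ≤ R * L := by
          have h2 : ∑ j, (q j : ℝ) * (e i j : ℝ) =
              R * ∑ j, ψ j * (e i j : ℝ) + ∑ j, ((q j : ℝ) - R * ψ j) * (e i j : ℝ) := by
            rw [Finset.mul_sum, ← Finset.sum_add_distrib]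
            refine Finset.sum_congr rfl fun j _ => ?_
            ring
          have h3 : |∑ j, ((q j : ℝ) - R * ψ j) * (e i j : ℝ)| ≤ n * R := by
            calc |∑ j, ((q j : ℝ) - R * ψ j) * (e i j : ℝ)|
                ≤ ∑ j, |((q j : ℝ) - R * ψ j) * (e i j : ℝ)| := Finset.abs_sum_le_sum_abs _ _
              _ ≤ ∑ _j : Fin n, (1 : ℝ) * R := by
                  refine Finset.sum_le_sum fun j _ => ?_
                  rw [abs_mul]
                  refine mul_le_mul ?_ ?_ (abs_nonneg _) zero_le_one
                  · have h4 := Int.floor_le ((R : ℝ) * ψ j)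
                    have h5 := Int.lt_floor_add_one ((R : ℝ) * ψ j)
                    rw [abs_le]
                    constructor
                    · change -1 ≤ (⌊(R : ℝ) * ψ j⌋ : ℝ) - R * ψ j
                      linarith
                    · change (⌊(R : ℝ) * ψ j⌋ : ℝ) - R * ψ j ≤ 1
                      linarith
                  · exact_mod_cast he i j
              _ = n * R := by
                  rw [Finset.sum_const, Finset.card_univ, Fintype.card_fin, nsmul_eq_mul, one_mul]
          have hKc : K ≤ (⌈K⌉₊ : ℝ) := Nat.le_ceil K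
          calc |∑ j, (q j : ℝ) * (e i j : ℝ)|
              ≤ |(R : ℝ) * ∑ j, ψ j * (e i j : ℝ)| +
                |∑ j, ((q j : ℝ) - R * ψ j) * (e i j : ℝ)| := by
                rw [h2]
                exact abs_add_le _ _
            _ ≤ R * K + n * R := by
                rw [abs_mul, abs_of_pos hR0]
                exact add_le_add (mul_le_mul_of_nonneg_left (hψK i hi) hR0.le) h3
            _ ≤ R * (⌈K⌉₊ : ℝ) + n * R := by gcongr
            _ = R * L := by
                simp only [L]
                push_cast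
                ring
        exact_mod_cast h1
      · rw [if_neg hi]
        exact mem_box.2 (he i)

end Pool.Agent.TH526.ZT
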