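import Pool.Agent.TH526.ZT.E

/-!
Sparse systems of Laurent polynomial equations: the criterion (helper file).
-/

set_option autoImplicit false

namespace Pool.Agent.TH526.ZT

open MvPolynomial Pool.Agent.H173R3.ZT
open Pool.Agent.Results.MP_b7926e_nt.NoAtypical (coset idealOf dim mem_idealOf)

/-- the points of the torus at which the Laurent polynomials with supports `A j` and coefficients
`b j α` vanish -/
def sys {n r : ℕ} (A : Fin r → Finset (Fin n → ℤ)) (b : Fin r → (Fin n → ℤ) → ℂ) :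
    Set (Fin n → ℂ) :=
  {x | (∀ l, x l ≠ 0) ∧ ∀ j, ∑ α ∈ A j, b j α * ∏ l, x l ^ α l = 0}

/-- a Laurent polynomial which vanishes on `W` vanishes at all zeros of the ideal of `W` in the
torus -/
theorem laurent_vanish {n : ℕ} (W : Set (Fin n → ℂ)) (hW : ∀ x ∈ W, ∀ l, x l ≠ 0)
    (A : Finset (Fin n → ℤ)) (b : (Fin n → ℤ) → ℂ)
    (h : ∀ x ∈ W, ∑ α ∈ A, b α * ∏ l, x l ^ α l = 0) (y : Fin n → ℂ) (hy : ∀ l, y l ≠ 0)
    (hyW : ∀ f ∈ idealOf W, eval y f = 0) : ∑ α ∈ A, b α * ∏ l, y l ^ α l = 0 := by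
  classical
  let β : Fin n → ℕ := fun l => ∑ α ∈ A, (α l).natAbs
  have hβ : ∀ α ∈ A, ∀ l, 0 ≤ (β l : ℤ) + α l := by
    intro α hα l
    have h1 : (α l).natAbs ≤ β l :=
      Finset.single_le_sum (f := fun α : Fin n → ℤ => (α l).natAbs) (fun _ _ => Nat.zero_le _) hα
    omega
  let f : MvPolynomial (Fin n) ℂ := ∑ α ∈ A, C (b α) * ∏ l, X l ^ ((β l : ℤ) + α l).toNat
  have hf : ∀ x : Fin n → ℂ, (∀ l, x l ≠ 0) →
      eval x f = (∏ l, x l ^ β l) * ∑ α ∈ A, b α * ∏ l, x l ^ α l := by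
    intro x hx
    rw [Finset.mul_sum]
    simp only [f, map_sum, map_mul, map_prod, map_pow, eval_X, eval_C]
    refine Finset.sum_congr rfl fun α hα => ?_
    have h2 : (∏ l, x l ^ ((β l : ℤ) + α l).toNat) = (∏ l, x l ^ β l) * ∏ l, x l ^ α l := by
      rw [← Finset.prod_mul_distrib]
      refine Finset.prod_congr rfl fun l _ => ?_
      rw [← zpow_natCast, Int.toNat_of_nonneg (hβ α hα l), zpow_add₀ (hx l), zpow_natCast]
    rw [h2]
    ring
  have hfW : f ∈ idealOf W := by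
    rw [mem_idealOf]
    intro x hx
    rw [hf x (hW x hx), h x hx, mul_zero]
  have h3 := hyW f hfW
  rw [hf y hy] at h3
  exact (mul_eq_zero.1 h3).resolve_left (Finset.prod_ne_zero_iff.2 fun l _ => pow_ne_zero _ (hy l))

/-- two terms have almost the same absolute value -/
theorem exists_pair_laurent {n : ℕ} (v : AbsoluteValue ℂ ℝ)
    (x : Fin n → ℂ) (hx : ∀ l, x l ≠ 0) (A : Finset (Fin n → ℤ)) (hA : A.Nonempty)
    (b : (Fin n → ℤ) → ℂ) (hb : ∀ α ∈ A, b α ≠ 0) (h0 : ∑ α ∈ A, b α * ∏ l, x l ^ α l = 0) :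
    ∃ p ∈ A.offDiag, |Real.log (v (b p.1)) - Real.log (v (b p.2)) +
      ∑ l, ((p.1 - p.2) l : ℝ) * Real.log (v (x l))| ≤ Real.log A.card := by
  classical
  have hprod : ∀ β : Fin n → ℤ, (∏ l, x l ^ β l) ≠ 0 := fun β =>
    Finset.prod_ne_zero_iff.2 fun i _ => zpow_ne_zero _ (hx i)
  obtain ⟨α, hα, β, hβ, hαβ, hle⟩ := exists_dominant_pair A hA v
    (fun α => b α * ∏ l, x l ^ α l) (fun α hα => mul_ne_zero (hb α hα) (hprod α)) h0
  refine ⟨(α, β), Finset.mem_offDiag.2 ⟨hα, hβ, hαβ⟩, ?_⟩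
  have hlog : ∀ γ ∈ A, Real.log (v (b γ * ∏ l, x l ^ γ l)) =
      Real.log (v (b γ)) + ∑ l, (γ l : ℝ) * Real.log (v (x l)) := by
    intro γ hγ
    have h1 := log_chr v hx γ
    rw [chr] at h1
    rw [← h1, map_mul, Real.log_mul]
    · exact v.ne_zero_iff.2 (hb γ hγ)
    · exact v.ne_zero_iff.2 (hprod γ)
  rw [hlog α hα, hlog β hβ] at hle
  have h3 : ∑ l, ((α - β) l : ℝ) * Real.log (v (x l)) =
      ∑ l, (α l : ℝ) * Real.log (v (x l)) - ∑ l, (β l : ℝ) * Real.log (v (x l)) := by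
    rw [← Finset.sum_sub_distrib]
    refine Finset.sum_congr rfl fun l _ => ?_
    rw [Pi.sub_apply]
    push_cast
    ring
  change |Real.log (v (b α)) - Real.log (v (b β)) +
    ∑ l, ((α - β) l : ℝ) * Real.log (v (x l))| ≤ Real.log A.card
  rw [h3]
  refine le_trans (le_of_eq ?_) hle
  congr 1
  ring

/-- the number of choices of a pair of different monomials in every equation -/
def pairs {n r : ℕ} (A : Fin r → Finset (Fin n → ℤ)) :
    Finset (Fin r → (Fin n → ℤ) × (Fin n → ℤ)) :=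
  Fintype.piFinset fun j => (A j).offDiag

theorem card_pairs {n r : ℕ} (A : Fin r → Finset (Fin n → ℤ)) :
    (pairs A).card = ∏ j, (A j).card * ((A j).card - 1) := by
  rw [pairs, Fintype.card_piFinset]
  refine Finset.prod_congr rfl fun j _ => ?_
  rw [Finset.offDiag_card, Nat.mul_sub, mul_one]

/-- **The criterion for sparse systems.** -/
theorem sys_criterion {n r : ℕ} (A : Fin r → Finset (Fin n → ℤ)) (hA : ∀ j, (A j).Nonempty)
    (N t : ℕ) (hN : (pairs A).card * t < N) (v : Fin N → AbsoluteValue ℂ ℝ) (B : ℝ) :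
    ∃ B' : ℝ, ∀ b : Fin r → (Fin n → ℤ) → ℂ, (∀ j, ∀ α ∈ A j, b j α ≠ 0) →
      ∀ (M : Submodule ℤ (Fin n → ℤ)) (η : Fin n → ℂ), (∀ l, η l ≠ 0) →
        (∀ i l, |Real.log (v i (η l))| ≤ B) → ∀ W ⊆ sys A b, W ⊆ coset M η →
          (idealOf W).IsPrime →
          (n : Cardinal) < dim W + (r : Cardinal) + (Module.finrank ℤ M : Cardinal) →
          ∃ T : Finset (Fin N), T.card = t ∧ ∃ s ∈ pairs A, ∃ φ : Fin r → ℝ, ‖φ‖ = 1 ∧
            ∀ i ∈ T, |∑ j, φ j * (Real.log (v i (b j (s j).1)) -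
              Real.log (v i (b j (s j).2)))| ≤ B' := by
  classical
  let δ : (Fin r → (Fin n → ℤ) × (Fin n → ℤ)) → Fin r → Fin n → ℤ := fun s j =>
    (s j).1 - (s j).2
  let L : ℝ := ∑ j, Real.log (A j).card
  refine ⟨(∑ s ∈ pairs A, ∑ j, ∑ l, |(δ s j l : ℝ)|) * |B| + L,
    fun b hb M η hη hηB W hWV hWT hW hdim => ?_⟩
  obtain ⟨y, hy0, hyW, Λ, hΛr, hΛ⟩ := exists_special W hW M η hη hWT
  have hysys : ∀ j, ∑ α ∈ A j, b j α * ∏ l, y l ^ α l = 0 := fun j =>
    laurent_vanish W (fun x hx => (hWV hx).1) (A j) (b j) (fun x hx => (hWV hx).2 j) y hy0 hyW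
  have hrank : n < r + Module.finrank ℤ Λ := by
    have h1 : (n : Cardinal) < ((r + Module.finrank ℤ Λ : ℕ) : Cardinal) := by
      refine hdim.trans_le ?_
      calc dim W + (r : Cardinal) + (Module.finrank ℤ M : Cardinal)
          = (r : Cardinal) + (dim W + (Module.finrank ℤ M : Cardinal)) := by
            rw [add_comm (dim W), add_assoc]
        _ ≤ (r : Cardinal) + (Module.finrank ℤ Λ : Cardinal) := by gcongr
        _ = _ := by push_cast; rfl
    exact_mod_cast h1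
  -- tropical relations and the pigeonhole principle
  have h1 : ∀ (i : Fin N) (j : Fin r), ∃ p ∈ (A j).offDiag,
      |Real.log (v i (b j p.1)) - Real.log (v i (b j p.2)) +
        ∑ l, ((p.1 - p.2) l : ℝ) * Real.log (v i (y l))| ≤ Real.log (A j).card := fun i j =>
    exists_pair_laurent (v i) y hy0 (A j) (hA j) (b j) (hb j) (hysys j)
  choose p hpA hp using h1
  obtain ⟨s, hs, hcard⟩ := Finset.exists_lt_card_fiber_of_mul_lt_card_of_maps_to
    (s := (Finset.univ : Finset (Fin N))) (t := pairs A) (f := p) (n := t)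
    (fun i _ => Fintype.mem_piFinset.2 fun j => hpA i j)
    (by rw [Finset.card_univ, Fintype.card_fin]; exact hN)
  obtain ⟨T, hTI, hTc⟩ := Finset.exists_subset_card_eq hcard.le
  have hTs : ∀ i ∈ T, p i = s := fun i hi => (Finset.mem_filter.1 (hTI hi)).2
  -- a relation
  have hker : ∃ k : Fin r → ℤ, k ≠ 0 ∧ ∑ j, k j • δ s j ∈ Λ := by
    let ψ : ((Fin r → ℤ) × Λ) →ₗ[ℤ] (Fin n → ℤ) :=
      (Fintype.linearCombination ℤ (δ s)).coprod (-Λ.subtype)
    have hψ : ∀ k a, ψ (k, a) = ∑ j, k j • δ s j - (a : Fin n → ℤ) := by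
      intro k a
      simp only [ψ, LinearMap.coprod_apply, LinearMap.neg_apply, Submodule.subtype_apply]
      rw [Fintype.linearCombination_apply, sub_eq_add_neg]
    have hnot : ¬ Function.Injective ψ := by
      intro hinj
      have h2 := LinearMap.finrank_le_finrank_of_injective hinj
      rw [Module.finrank_prod, Module.finrank_fin_fun, Module.finrank_fin_fun] at h2
      omega
    rw [injective_iff_map_eq_zero] at hnot
    push Not at hnot
    obtain ⟨⟨k, a⟩, hka, hne⟩ := hnot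
    rw [hψ, sub_eq_zero] at hka
    refine ⟨k, ?_, by rw [hka]; exact a.2⟩
    rintro rfl
    apply hne
    have h3 : (a : Fin n → ℤ) = 0 := by
      rw [← hka]
      simp
    exact Prod.ext rfl (Subtype.ext h3)
  obtain ⟨k, hk0, hkΛ⟩ := hker
  let κ : Fin r → ℝ := fun j => (k j : ℝ)
  have hκ0 : κ ≠ 0 := by
    intro h
    apply hk0
    funext j
    have h' : (k j : ℝ) = 0 := congrFun h j
    exact_mod_cast h'
  have hκn : ‖κ‖ ≠ 0 := norm_ne_zero_iff.2 hκ0
  refine ⟨T, hTc, s, hs, ‖κ‖⁻¹ • κ, ?_, ?_⟩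
  · rw [norm_smul, norm_inv, norm_norm, inv_mul_cancel₀ hκn]
  intro i hi
  set a := ∑ j, k j • δ s j with ha
  have hsum : ∀ z : Fin n → ℝ, ∑ l, (a l : ℝ) * z l = ∑ j, κ j * ∑ l, (δ s j l : ℝ) * z l := by
    intro z
    have h2 : ∀ l, (a l : ℝ) = ∑ j, κ j * (δ s j l : ℝ) := by
      intro l
      rw [ha, Finset.sum_apply, Int.cast_sum]
      refine Finset.sum_congr rfl fun j _ => ?_
      rw [Pi.smul_apply, smul_eq_mul, Int.cast_mul]
    simp only [h2, Finset.sum_mul, Finset.mul_sum]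
    rw [Finset.sum_comm]
    refine Finset.sum_congr rfl fun j _ => Finset.sum_congr rfl fun l _ => ?_
    ring
  have hya : Real.log (v i (chr y a)) = Real.log (v i (chr η a)) := by
    obtain ⟨m, hm, h2⟩ := hΛ a hkΛ
    have h3 := congrArg (v i) h2
    rw [map_pow, map_one, map_div₀] at h3
    have h4 : v i (chr y a) / v i (chr η a) = 1 :=
      (pow_eq_one_iff_of_nonneg (div_nonneg ((v i).nonneg _) ((v i).nonneg _)) hm.ne').1 h3
    rw [(div_eq_one_iff_eq ((v i).ne_zero (chr_ne_zero hη a))).1 h4]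
  rw [log_chr (v i) hy0, log_chr (v i) hη, hsum, hsum] at hya
  have hb1 : |∑ j, κ j * (Real.log (v i (b j (s j).1)) - Real.log (v i (b j (s j).2))) +
      ∑ j, κ j * ∑ l, (δ s j l : ℝ) * Real.log (v i (η l))| ≤ ‖κ‖ * L := by
    rw [← hya, ← Finset.sum_add_distrib, Finset.mul_sum]
    refine (Finset.abs_sum_le_sum_abs _ _).trans (Finset.sum_le_sum fun j _ => ?_)
    rw [← mul_add, abs_mul]
    have h5 := hp i j
    rw [hTs i hi] at h5
    exact mul_le_mul (norm_le_pi_norm κ j) h5 (abs_nonneg _) (norm_nonneg _)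
  have hb2 : |∑ j, κ j * ∑ l, (δ s j l : ℝ) * Real.log (v i (η l))| ≤
      ‖κ‖ * ((∑ j, ∑ l, |(δ s j l : ℝ)|) * |B|) := by
    calc |∑ j, κ j * ∑ l, (δ s j l : ℝ) * Real.log (v i (η l))|
        ≤ ∑ j, |κ j * ∑ l, (δ s j l : ℝ) * Real.log (v i (η l))| :=
          Finset.abs_sum_le_sum_abs _ _
      _ ≤ ∑ j, ‖κ‖ * ((∑ l, |(δ s j l : ℝ)|) * |B|) := by
          refine Finset.sum_le_sum fun j _ => ?_
          rw [abs_mul]
          refine mul_le_mul (norm_le_pi_norm κ j) ?_ (abs_nonneg _) (norm_nonneg _)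
          calc |∑ l, (δ s j l : ℝ) * Real.log (v i (η l))|
              ≤ ∑ l, |(δ s j l : ℝ) * Real.log (v i (η l))| := Finset.abs_sum_le_sum_abs _ _
            _ ≤ ∑ l, |(δ s j l : ℝ)| * |B| := by
                refine Finset.sum_le_sum fun l _ => ?_
                rw [abs_mul]
                exact mul_le_mul_of_nonneg_left ((hηB i l).trans (le_abs_self B)) (abs_nonneg _)
            _ = (∑ l, |(δ s j l : ℝ)|) * |B| := by rw [Finset.sum_mul]
      _ = ‖κ‖ * ((∑ j, ∑ l, |(δ s j l : ℝ)|) * |B|) := by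
          rw [← Finset.mul_sum, Finset.sum_mul]
  have hle : ∑ j, ∑ l, |(δ s j l : ℝ)| ≤ ∑ s ∈ pairs A, ∑ j, ∑ l, |(δ s j l : ℝ)| :=
    Finset.single_le_sum (f := fun s => ∑ j, ∑ l, |(δ s j l : ℝ)|)
      (fun _ _ => Finset.sum_nonneg fun _ _ => Finset.sum_nonneg fun _ _ => abs_nonneg _) hs
  have h7 : ∑ j, (‖κ‖⁻¹ • κ) j * (Real.log (v i (b j (s j).1)) - Real.log (v i (b j (s j).2))) =
      ‖κ‖⁻¹ * ∑ j, κ j * (Real.log (v i (b j (s j).1)) - Real.log (v i (b j (s j).2))) := by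
    rw [Finset.mul_sum]
    refine Finset.sum_congr rfl fun j _ => ?_
    rw [Pi.smul_apply, smul_eq_mul]
    ring
  rw [h7, abs_mul, abs_of_nonneg (inv_nonneg.2 (norm_nonneg _))]
  rw [inv_mul_le_iff₀ (lt_of_le_of_ne (norm_nonneg _) (Ne.symm hκn)), mul_add]
  have h8 : ∑ j, κ j * (Real.log (v i (b j (s j).1)) - Real.log (v i (b j (s j).2))) =
      (∑ j, κ j * (Real.log (v i (b j (s j).1)) - Real.log (v i (b j (s j).2))) +
        ∑ j, κ j * ∑ l, (δ s j l : ℝ) * Real.log (v i (η l))) -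
      ∑ j, κ j * ∑ l, (δ s j l : ℝ) * Real.log (v i (η l)) := by ring
  rw [h8]
  refine (abs_sub _ _).trans ?_
  rw [add_comm (‖κ‖ * _)]
  refine add_le_add hb1 (hb2.trans ?_)
  gcongr

end Pool.Agent.TH526.ZT
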