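import Pool.Agent.TH526.ZT.F

/-!
Counting the coefficient vectors of sparse systems such that `t` of the rows of differences are near
to a hyperplane (helper file).
-/

set_option autoImplicit false

namespace Pool.Agent.TH526.ZT

/-- the coefficients of a system of `r` Laurent polynomials with supports `A j` -/
abbrev Coeff {n r : ℕ} (A : Fin r → Finset (Fin n → ℤ)) : Type := (j : Fin r) × {α // α ∈ A j}

/-- the integral matrices with entries at most `R` -/
noncomputable def boxX (X : Type) [Fintype X] [DecidableEq X] (N R : ℕ) : Finset (Fin N → X → ℤ) :=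
  Fintype.piFinset fun _ => Fintype.piFinset fun _ => Finset.Icc (-(R : ℤ)) R

theorem mem_boxX {X : Type} [Fintype X] [DecidableEq X] {N R : ℕ} {e : Fin N → X → ℤ} :
    e ∈ boxX X N R ↔ ∀ i x, |e i x| ≤ R := by
  rw [boxX, Fintype.mem_piFinset]
  refine forall_congr' fun i => ?_
  rw [Fintype.mem_piFinset]
  refine forall_congr' fun x => ?_
  rw [Finset.mem_Icc, abs_le]

theorem card_boxX (X : Type) [Fintype X] [DecidableEq X] (N R : ℕ) :
    (boxX X N R).card = (2 * R + 1) ^ (N * Fintype.card X) := by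
  rw [boxX, Fintype.card_piFinset]
  simp only [Fintype.card_piFinset, card_Icc', Finset.prod_const, Finset.card_univ,
    Fintype.card_fin]
  rw [← pow_mul, mul_comm (Fintype.card X) N]

/-- the differences -/
def diffs {X : Type} {N r : ℕ} (f g : Fin r → X) (e : Fin N → X → ℤ) : Fin N → Fin r → ℤ :=
  fun i j => e i (f j) - e i (g j)

theorem card_fibre {X : Type} [Fintype X] [DecidableEq X] {N r : ℕ} (R : ℕ) (f g : Fin r → X)
    (hf : Function.Injective f) (hg : ∀ j j', g j ≠ f j') (E : Finset (Fin N → Fin r → ℤ)) :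
    ((boxX X N R).filter fun e => diffs f g e ∈ E).card ≤
      E.card * (2 * R + 1) ^ (N * (Fintype.card X - r)) := by
  classical
  let Y : Type := {x : X // x ∉ Finset.univ.image f}
  have hY : Fintype.card Y = Fintype.card X - r := by
    have h1 : Fintype.card Y = (Finset.univ.image f)ᶜ.card := by
      rw [Fintype.card_subtype]
      congr 1
      ext x
      simp
    rw [h1, Finset.card_compl, Finset.card_image_of_injective _ hf, Finset.card_univ,
      Fintype.card_fin]
  rw [← hY, ← card_boxX, ← Finset.card_product]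
  refine Finset.card_le_card_of_injOn (fun e => (diffs f g e, fun i (y : Y) => e i y)) ?_ ?_
  · intro e he
    rw [Finset.mem_coe, Finset.mem_filter] at he
    rw [Finset.mem_coe, Finset.mem_product]
    refine ⟨he.2, mem_boxX.2 fun i y => ?_⟩
    exact mem_boxX.1 he.1 i y
  · intro e _ e' _ hee
    have h1 : diffs f g e = diffs f g e' := congrArg Prod.fst hee
    have h2 : (fun i (y : Y) => e i y) = fun i (y : Y) => e' i y := congrArg Prod.snd hee
    have h3 : ∀ i, ∀ x ∉ Finset.univ.image f, e i x = e' i x := fun i x hx =>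
      congrFun (congrFun h2 i) ⟨x, hx⟩
    funext i x
    by_cases hx : x ∈ Finset.univ.image f
    · obtain ⟨j, -, rfl⟩ := Finset.mem_image.1 hx
      have h4 : e i (f j) - e i (g j) = e' i (f j) - e' i (g j) := congrFun (congrFun h1 i) j
      have h5 : e i (g j) = e' i (g j) := h3 i (g j) (by
        intro h
        obtain ⟨j', -, hj'⟩ := Finset.mem_image.1 h
        exact hg j j' hj'.symm)
      linarith
    · exact h3 i x hx

/-- The coefficient vectors with exponents of size at most `R`, such that `t` rows of differences are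
near to a hyperplane. -/
theorem count_sys {n r : ℕ} (A : Fin r → Finset (Fin n → ℤ)) (N t : ℕ) (K : ℝ) :
    ∃ c : ℕ, ∀ R : ℕ, 1 ≤ R → ∃ E : Finset (Fin N → Coeff A → ℤ),
      E.card * (2 * R + 1) ^ t ≤ c * (2 * R + 1) ^ (N * ∑ j, (A j).card + r - 1) ∧
      ∀ e : Fin N → Coeff A → ℤ, (∀ i a, |e i a| ≤ R) →
        (∃ T : Finset (Fin N), T.card = t ∧ ∃ s : Fin r → (Fin n → ℤ) × (Fin n → ℤ),
          ∃ hs : ∀ j, (s j).1 ∈ A j ∧ (s j).2 ∈ A j ∧ (s j).1 ≠ (s j).2,
            ∃ φ : Fin r → ℝ, ‖φ‖ = 1 ∧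
            ∀ i ∈ T, |∑ j, φ j * ((e i ⟨j, (s j).1, (hs j).1⟩ : ℝ) -
              e i ⟨j, (s j).2, (hs j).2.1⟩)| ≤ K) → e ∈ E := by
  classical
  obtain ⟨c, hc⟩ := count_bad r N t K
  refine ⟨(pairs A).card * (c * 2 ^ (r * N + r - 1)), fun R hR => ?_⟩
  obtain ⟨E₀, hE₀, hE₀'⟩ := hc (2 * R) (by omega)
  have hmem : ∀ s ∈ pairs A, ∀ j, (s j).1 ∈ A j ∧ (s j).2 ∈ A j ∧ (s j).1 ≠ (s j).2 := by
    intro s hs j
    have := Fintype.mem_piFinset.1 hs j
    rwa [Finset.mem_offDiag] at this
  let F : {s // s ∈ pairs A} → Finset (Fin N → Coeff A → ℤ) := fun s =>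
    (boxX (Coeff A) N R).filter fun e =>
      diffs (fun j => ⟨j, (s.1 j).1, (hmem s.1 s.2 j).1⟩)
        (fun j => ⟨j, (s.1 j).2, (hmem s.1 s.2 j).2.1⟩) e ∈ E₀
  refine ⟨Finset.univ.biUnion F, ?_, ?_⟩
  · have hcard : Fintype.card (Coeff A) = ∑ j, (A j).card := by
      rw [Fintype.card_sigma]
      refine Finset.sum_congr rfl fun j _ => ?_
      rw [Fintype.card_coe]
    have h1 : ∀ s : {s // s ∈ pairs A}, (F s).card * (2 * R + 1) ^ t ≤
        c * 2 ^ (r * N + r - 1) * (2 * R + 1) ^ (N * ∑ j, (A j).card + r - 1) := by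
      intro s
      have h2 := card_fibre (N := N) R
        (fun j => (⟨j, (s.1 j).1, (hmem s.1 s.2 j).1⟩ : Coeff A))
        (fun j => ⟨j, (s.1 j).2, (hmem s.1 s.2 j).2.1⟩)
        (fun j j' h => congrArg Sigma.fst h)
        (fun j j' h => by
          obtain rfl : j = j' := congrArg Sigma.fst h
          have h3 := eq_of_heq (Sigma.mk.inj h).2
          exact (hmem s.1 s.2 j).2.2 (congrArg Subtype.val h3).symm) E₀
      rw [hcard] at h2
      have hD : r ≤ ∑ j, (A j).card := by
        calc r = ∑ _j : Fin r, 1 := by simp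
          _ ≤ ∑ j, (A j).card := Finset.sum_le_sum fun j _ =>
            Finset.card_pos.2 ⟨_, (hmem s.1 s.2 j).1⟩
      have hexp : N * (∑ j, (A j).card - r) + (r * N + r - 1) =
          N * ∑ j, (A j).card + r - 1 := by
        obtain ⟨D', hD'⟩ := Nat.exists_eq_add_of_le hD
        rw [hD', Nat.add_sub_cancel_left]
        rcases Nat.eq_zero_or_pos r with h0 | h0
        · subst h0
          have : D' = 0 := by
            rw [Finset.univ_eq_empty, Finset.sum_empty] at hD'
            omega
          subst this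
          simp
        · have h4 : N * (r + D') = N * D' + r * N := by ring
          rw [h4]
          omega
      have h5 : E₀.card * (2 * R + 1) ^ t ≤ c * (2 * (2 * R + 1)) ^ (r * N + r - 1) := by
        calc E₀.card * (2 * R + 1) ^ t ≤ E₀.card * (2 * (2 * R) + 1) ^ t := by
              gcongr
              omega
          _ ≤ c * (2 * (2 * R) + 1) ^ (r * N + r - 1) := hE₀
          _ ≤ c * (2 * (2 * R + 1)) ^ (r * N + r - 1) := by
              gcongr
              omega
      calc (F s).card * (2 * R + 1) ^ t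
          ≤ E₀.card * (2 * R + 1) ^ (N * (∑ j, (A j).card - r)) * (2 * R + 1) ^ t :=
            Nat.mul_le_mul_right _ h2
        _ = (2 * R + 1) ^ (N * (∑ j, (A j).card - r)) * (E₀.card * (2 * R + 1) ^ t) := by ring
        _ ≤ (2 * R + 1) ^ (N * (∑ j, (A j).card - r)) *
            (c * (2 * (2 * R + 1)) ^ (r * N + r - 1)) := Nat.mul_le_mul_left _ h5
        _ = c * 2 ^ (r * N + r - 1) * (2 * R + 1) ^ (N * (∑ j, (A j).card - r) +
            (r * N + r - 1)) := by
          rw [mul_pow, pow_add]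
          ring
        _ = _ := by rw [hexp]
    calc (Finset.univ.biUnion F).card * (2 * R + 1) ^ t
        ≤ (∑ s, (F s).card) * (2 * R + 1) ^ t := by
          gcongr
          exact Finset.card_biUnion_le
      _ = ∑ s, (F s).card * (2 * R + 1) ^ t := Finset.sum_mul _ _ _
      _ ≤ ∑ _s : {s // s ∈ pairs A}, c * 2 ^ (r * N + r - 1) *
          (2 * R + 1) ^ (N * ∑ j, (A j).card + r - 1) := Finset.sum_le_sum fun s _ => h1 s
      _ = (pairs A).card * (c * 2 ^ (r * N + r - 1)) *
          (2 * R + 1) ^ (N * ∑ j, (A j).card + r - 1) := by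
        rw [Finset.sum_const, Finset.card_univ, Fintype.card_coe, smul_eq_mul]
        ring
  · rintro e he ⟨T, hT, s, hs, φ, hφ, hφK⟩
    have hsp : s ∈ pairs A := Fintype.mem_piFinset.2 fun j =>
      Finset.mem_offDiag.2 (hs j)
    refine Finset.mem_biUnion.2 ⟨⟨s, hsp⟩, Finset.mem_univ _, Finset.mem_filter.2
      ⟨mem_boxX.2 he, ?_⟩⟩
    refine hE₀' _ (fun i j => ?_) ⟨T, hT, φ, hφ, fun i hi => ?_⟩
    · have h1 := he i ⟨j, (s j).1, (hs j).1⟩
      have h2 := he i ⟨j, (s j).2, (hs j).2.1⟩
      push_cast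
      exact (abs_sub _ _).trans (by linarith)
    · have h1 := hφK i hi
      have h2 : ∀ j, ((diffs (fun j => (⟨j, (s j).1, (hs j).1⟩ : Coeff A))
          (fun j => ⟨j, (s j).2, (hs j).2.1⟩) e i j : ℤ) : ℝ) =
          (e i ⟨j, (s j).1, (hs j).1⟩ : ℝ) - e i ⟨j, (s j).2, (hs j).2.1⟩ := by
        intro j
        rw [diffs]
        push_cast
        rfl
      simp only [h2]
      exact h1

end Pool.Agent.TH526.ZT
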