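import Pool.Agent.TH526.ZT.G

/-!
Counting the points of a finitely generated group such that `t` of the vectors of logarithms are
near to a hyperplane (helper file).
-/

set_option autoImplicit false

namespace Pool.Agent.TH526.ZT

/-- Independent rows have as many independent columns. -/
theorem exists_columns {τ : Type} [Fintype τ] {q : ℕ} (lam : τ → Fin q → ℝ)
    (h : LinearIndependent ℝ lam) :
    ∃ a : Fin (Fintype.card τ) → Fin q, Function.Injective a ∧ ∃ C : ℝ, 0 ≤ C ∧
      ∀ (x : Fin (Fintype.card τ) → ℝ) (M : ℝ), (∀ i, |∑ c, lam i (a c) * x c| ≤ M) →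
        ∀ c, |x c| ≤ C * M := by
  classical
  let A : Matrix τ (Fin q) ℝ := Matrix.of lam
  have hrank : A.rank = Fintype.card τ := LinearIndependent.rank_matrix h
  rw [Matrix.rank_eq_finrank_span_cols] at hrank
  obtain ⟨κ, a, ha, hspan, hind⟩ := exists_linearIndependent' ℝ A.col
  have _ : Finite κ := Finite.of_injective a ha
  let _ := Fintype.ofFinite κ
  have hκ : Fintype.card κ = Fintype.card τ := by
    rw [← hrank, ← hspan, finrank_span_eq_card hind]
  let e : Fin (Fintype.card τ) ≃ κ := (Fintype.equivFinOfCardEq hκ).symm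
  have hind' : LinearIndependent ℝ fun c => A.col (a (e c)) := hind.comp e e.injective
  let f : (Fin (Fintype.card τ) → ℝ) →ₗ[ℝ] (τ → ℝ) :=
    Fintype.linearCombination ℝ (fun c => A.col (a (e c)))
  have hf : LinearMap.ker f = ⊥ := by
    rw [LinearMap.ker_eq_bot']
    intro x hx
    funext c
    exact Fintype.linearIndependent_iff.1 hind' x hx c
  obtain ⟨K, hK, hanti⟩ := f.exists_antilipschitzWith hf
  refine ⟨fun c => a (e c), ha.comp e.injective, K, K.coe_nonneg, fun x M hM c => ?_⟩
  have hτ : Nonempty τ := Fintype.card_pos_iff.1 (lt_of_le_of_lt (Nat.zero_le _) c.2)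
  have hM0 : 0 ≤ M := (abs_nonneg _).trans (hM hτ.some)
  have h1 : ‖f x‖ ≤ M := by
    rw [pi_norm_le_iff_of_nonneg hM0]
    intro i
    have h2 : f x i = ∑ c, lam i (a (e c)) * x c := by
      simp only [f, Fintype.linearCombination_apply, Finset.sum_apply, Pi.smul_apply, smul_eq_mul]
      refine Finset.sum_congr rfl fun c _ => ?_
      rw [mul_comm]
      rfl
    rw [h2, Real.norm_eq_abs]
    exact hM i
  have h3 := hanti.le_mul_dist x 0
  rw [map_zero, dist_zero_right, dist_zero_right] at h3
  calc |x c| = ‖x c‖ := rfl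
    _ ≤ ‖x‖ := norm_le_pi_norm x c
    _ ≤ K * ‖f x‖ := h3
    _ ≤ K * M := by gcongr

theorem card_slab_real {n q t R : ℕ} (hR : 1 ≤ R) {τ : Type} [Fintype τ] (lam : τ → Fin q → ℝ)
    (a : Fin t → Fin q) (ha : Function.Injective a) (C : ℝ)
    (hC : ∀ (x : Fin t → ℝ) (M : ℝ), (∀ i, |∑ c, lam i (a c) * x c| ≤ M) → ∀ c, |x c| ≤ C * M)
    (L : ℝ) (j₀ : Fin n) (f : Fin n → ℤ) (hf : f j₀ = R) :
    ((boxX (Fin n) q R).filter fun e => ∀ i, |∑ k, lam i k * ∑ j, (f j : ℝ) * e k j| ≤
      R * L).card * (2 * R + 1) ^ t ≤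
      (2 * ⌈C * (2 * L)⌉₊ + 1) ^ t * (2 * R + 1) ^ (q * n) := by
  classical
  set s := (boxX (Fin n) q R).filter fun e => ∀ i, |∑ k, lam i k * ∑ j, (f j : ℝ) * e k j| ≤
      R * L with hs
  set D := ⌈C * (2 * L)⌉₊ with hD
  let S : Finset (Fin q) := Finset.univ.image a
  let ρ : (Fin q → Fin n → ℤ) → Fin q → Fin n → ℤ := fun e k j =>
    if j = j₀ ∧ k ∈ S then 0 else e k j
  let Z : Finset (Fin q → Fin n → ℤ) := Fintype.piFinset fun k => Fintype.piFinset fun j =>
    if j = j₀ ∧ k ∈ S then {0} else Finset.Icc (-(R : ℤ)) R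
  have h2 : (s.image ρ).card ≤ Z.card := by
    refine Finset.card_le_card fun w hw => ?_
    obtain ⟨e, he, rfl⟩ := Finset.mem_image.1 hw
    rw [Fintype.mem_piFinset]
    intro k
    rw [Fintype.mem_piFinset]
    intro j
    change (if j = j₀ ∧ k ∈ S then (0 : ℤ) else e k j) ∈ _
    split_ifs with h
    · exact Finset.mem_singleton_self _
    · rw [Finset.mem_Icc, ← abs_le]
      exact mem_boxX.1 (Finset.mem_filter.1 he).1 k j
  have h3 : Z.card * (2 * R + 1) ^ t = (2 * R + 1) ^ (q * n) := by
    have hc : ∀ (k : Fin q) (j : Fin n), (if j = j₀ ∧ k ∈ S then ({0} : Finset ℤ) else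
        Finset.Icc (-(R : ℤ)) R).card = if j = j₀ ∧ k ∈ S then 1 else 2 * R + 1 := by
      intro k j
      split_ifs
      · exact Finset.card_singleton _
      · exact card_Icc' R
    have hSt : (2 * R + 1) ^ t = ∏ k : Fin q, if k ∈ S then 2 * R + 1 else 1 := by
      rw [Finset.prod_ite, Finset.prod_const, Finset.prod_const_one, mul_one]
      congr 1
      have h4 : (Finset.univ.filter fun k => k ∈ S) = S := by
        ext k
        simp
      rw [h4, Finset.card_image_of_injective _ ha, Finset.card_univ, Fintype.card_fin]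
    rw [Fintype.card_piFinset]
    simp only [Fintype.card_piFinset, hc]
    rw [hSt, ← Finset.prod_mul_distrib]
    have h5 : ∀ k : Fin q, (∏ j : Fin n, if j = j₀ ∧ k ∈ S then 1 else 2 * R + 1) *
        (if k ∈ S then 2 * R + 1 else 1) = (2 * R + 1) ^ n := by
      intro k
      by_cases hk : k ∈ S
      · rw [if_pos hk]
        simp only [hk, and_true]
        rw [← Finset.mul_prod_erase Finset.univ _ (Finset.mem_univ j₀), if_pos rfl, one_mul,
          Finset.prod_congr rfl (g := fun _ => 2 * R + 1)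
            fun j hj => if_neg (Finset.ne_of_mem_erase hj), Finset.prod_const,
          Finset.card_erase_of_mem (Finset.mem_univ _), Finset.card_univ, Fintype.card_fin,
          ← pow_succ]
        congr 1
        have := j₀.2
        omega
      · simp [hk]
    rw [Finset.prod_congr rfl fun k _ => h5 k, Finset.prod_const, Finset.card_univ,
      Fintype.card_fin, ← pow_mul, mul_comm n q]
  have h1 : s.card ≤ (2 * D + 1) ^ t * (s.image ρ).card := by
    refine Finset.card_le_mul_card_image _ _ fun w _ => ?_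
    rcases Finset.eq_empty_or_nonempty (s.filter fun e => ρ e = w) with he | ⟨e₀, he₀⟩
    · rw [he, Finset.card_empty]
      exact Nat.zero_le _
    · have h6 : (s.filter fun e => ρ e = w).card ≤ (Fintype.piFinset fun c : Fin t =>
          Finset.Icc (e₀ (a c) j₀ - D) (e₀ (a c) j₀ + D)).card := by
        rw [Finset.mem_filter] at he₀
        have hoff : ∀ e, ρ e = w → ∀ k j, ¬ (j = j₀ ∧ k ∈ S) → e k j = e₀ k j := by
          intro e he k j hkj
          have h7 := congrFun (congrFun (he.trans he₀.2.symm) k) j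
          change (if j = j₀ ∧ k ∈ S then (0 : ℤ) else e k j) =
            if j = j₀ ∧ k ∈ S then (0 : ℤ) else e₀ k j at h7
          rwa [if_neg hkj, if_neg hkj] at h7
        refine Finset.card_le_card_of_injOn (fun e c => e (a c) j₀) ?_ ?_
        · intro e he
          rw [Finset.mem_coe, Finset.mem_filter] at he
          rw [Finset.mem_coe, Fintype.mem_piFinset]
          intro c
          have h8 := hC (fun c => ((e (a c) j₀ - e₀ (a c) j₀ : ℤ) : ℝ)) (2 * L) (fun i => ?_) c
          · rw [Finset.mem_Icc]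
            have h9 : |((e (a c) j₀ - e₀ (a c) j₀ : ℤ) : ℝ)| ≤ (D : ℝ) :=
              h8.trans (Nat.le_ceil _)
            have h10 : |e (a c) j₀ - e₀ (a c) j₀| ≤ (D : ℤ) := by exact_mod_cast h9
            rw [abs_le] at h10
            constructor <;> linarith [h10.1, h10.2]
          · have hR' : (0 : ℝ) < R := by exact_mod_cast hR
            have h9 : (R : ℝ) * ∑ c, lam i (a c) * ((e (a c) j₀ - e₀ (a c) j₀ : ℤ) : ℝ) =
                ∑ k, lam i k * ∑ j, (f j : ℝ) * e k j -
                ∑ k, lam i k * ∑ j, (f j : ℝ) * e₀ k j := by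
              rw [← Finset.sum_sub_distrib, Finset.mul_sum]
              have h10 : ∀ k, lam i k * ∑ j, (f j : ℝ) * e k j -
                  lam i k * ∑ j, (f j : ℝ) * e₀ k j =
                  lam i k * ((R : ℝ) * ((e k j₀ - e₀ k j₀ : ℤ) : ℝ)) := by
                intro k
                rw [← mul_sub, ← Finset.sum_sub_distrib, Finset.sum_eq_single j₀]
                · rw [hf]
                  push_cast
                  ring
                · intro j _ hj
                  rw [hoff e he.2 k j fun h => hj h.1]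
                  ring
                · intro h
                  exact absurd (Finset.mem_univ _) h
              rw [Finset.sum_congr rfl fun k _ => h10 k]
              have h11 : ∑ k, lam i k * ((R : ℝ) * ((e k j₀ - e₀ k j₀ : ℤ) : ℝ)) =
                  ∑ k ∈ S, lam i k * ((R : ℝ) * ((e k j₀ - e₀ k j₀ : ℤ) : ℝ)) := by
                symm
                refine Finset.sum_subset (Finset.subset_univ _) fun k _ hk => ?_
                rw [hoff e he.2 k j₀ fun h => hk h.2, sub_self]
                simp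
              rw [h11, Finset.sum_image fun c _ c' _ h => ha h]
              refine Finset.sum_congr rfl fun c _ => ?_
              ring
            have h12 : |(R : ℝ) * ∑ c, lam i (a c) * ((e (a c) j₀ - e₀ (a c) j₀ : ℤ) : ℝ)| ≤
                R * (2 * L) := by
              rw [h9]
              refine (abs_sub _ _).trans ?_
              have h13 := (Finset.mem_filter.1 he.1).2 i
              have h14 := (Finset.mem_filter.1 he₀.1).2 i
              linarith
            rw [abs_mul, abs_of_pos hR'] at h12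
            exact le_of_mul_le_mul_left h12 hR'
        · intro e he e' he' hee
          rw [Finset.mem_coe, Finset.mem_filter] at he he'
          funext k j
          by_cases hkj : j = j₀ ∧ k ∈ S
          · obtain ⟨rfl, hk⟩ := hkj
            obtain ⟨c, -, rfl⟩ := Finset.mem_image.1 hk
            exact congrFun hee c
          · rw [hoff e he.2 k j hkj, hoff e' he'.2 k j hkj]
      refine h6.trans (le_of_eq ?_)
      rw [Fintype.card_piFinset]
      have h7 : ∀ c : Fin t, (Finset.Icc (e₀ (a c) j₀ - D) (e₀ (a c) j₀ + D)).card =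
          2 * D + 1 := by
        intro c
        rw [Int.card_Icc]
        omega
      rw [Finset.prod_congr rfl fun c _ => h7 c, Finset.prod_const, Finset.card_univ,
        Fintype.card_fin]
  calc s.card * (2 * R + 1) ^ t ≤ ((2 * D + 1) ^ t * (s.image ρ).card) * (2 * R + 1) ^ t := by
        gcongr
    _ ≤ ((2 * D + 1) ^ t * Z.card) * (2 * R + 1) ^ t := by gcongr
    _ = (2 * D + 1) ^ t * (Z.card * (2 * R + 1) ^ t) := by ring
    _ = _ := by rw [h3]

/-- The points of a finitely generated group with exponents of size at most `R`, for which `t` of the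
vectors of logarithms are near to a hyperplane. -/
theorem count_real (n q N t : ℕ) (lam : Fin N → Fin q → ℝ)
    (hlam : ∀ T : Finset (Fin N), T.card = t → LinearIndependent ℝ fun i : T => lam i) (K : ℝ) :
    ∃ c : ℕ, ∀ R : ℕ, 1 ≤ R → ∃ E : Finset (Fin q → Fin n → ℤ),
      E.card * (2 * R + 1) ^ t ≤ c * (2 * R + 1) ^ (n * q + n - 1) ∧
      ∀ e : Fin q → Fin n → ℤ, (∀ k j, |e k j| ≤ R) →
        (∃ T : Finset (Fin N), T.card = t ∧ ∃ φ : Fin n → ℝ, ‖φ‖ = 1 ∧
          ∀ i ∈ T, |∑ j, φ j * ∑ k, (e k j : ℝ) * lam i k| ≤ K) → e ∈ E := by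
  classical
  let Λ : ℝ := ∑ i, ∑ k, |lam i k|
  let L : ℝ := K + n * Λ
  have hcol : ∀ T : Finset (Fin N), ∃ C : ℝ, T.card = t → ∃ a : Fin t → Fin q,
      Function.Injective a ∧
      ∀ (x : Fin t → ℝ) (M : ℝ), (∀ i : T, |∑ c, lam i (a c) * x c| ≤ M) → ∀ c, |x c| ≤ C * M := by
    intro T
    by_cases hT : T.card = t
    · obtain ⟨a, ha, C, -, hC⟩ := exists_columns (fun i : T => lam i) (hlam T hT)
      have hcard : Fintype.card T = t := by rw [Fintype.card_coe, hT]
      subst hcard
      exact ⟨C, fun _ => ⟨a, ha, hC⟩⟩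
    · exact ⟨0, fun h => absurd h hT⟩
  choose C haC using hcol
  let c₀ : ℕ := ∑ T : Finset (Fin N), (2 * ⌈C T * (2 * L)⌉₊ + 1) ^ t
  refine ⟨c₀ * n, fun R hR => ?_⟩
  let G : Finset (Finset (Fin N)) := Finset.univ.filter fun T => T.card = t
  let Eq : Finset (Fin N) → (Fin n → ℤ) → Finset (Fin q → Fin n → ℤ) := fun T f =>
    (boxX (Fin n) q R).filter fun e => ∀ i : T, |∑ k, lam i k * ∑ j, (f j : ℝ) * e k j| ≤ R * L
  let E : Finset (Fin q → Fin n → ℤ) := G.biUnion fun T =>
    Finset.univ.biUnion fun j₀ : Fin n => (face n R j₀ R).biUnion fun f => Eq T f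
  refine ⟨E, ?_, ?_⟩
  · have h1 : ∀ T ∈ G, ∀ j₀ : Fin n, ∀ f ∈ face n R j₀ R,
        (Eq T f).card * (2 * R + 1) ^ t ≤
          (2 * ⌈C T * (2 * L)⌉₊ + 1) ^ t * (2 * R + 1) ^ (q * n) := by
      intro T hT j₀ f hf
      have hT' : T.card = t := (Finset.mem_filter.1 hT).2
      have hf0 : f j₀ = R := by
        rw [face, Fintype.mem_piFinset] at hf
        have := hf j₀
        rwa [if_pos rfl, Finset.mem_singleton] at this
      obtain ⟨a, ha, hC⟩ := haC T hT'
      exact card_slab_real hR (fun i : T => lam i) a ha (C T) hC L j₀ f hf0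
    have h3 : ∀ T ∈ G, ∀ j₀ : Fin n, ((face n R j₀ R).biUnion fun f => Eq T f).card *
        (2 * R + 1) ^ t ≤ (2 * ⌈C T * (2 * L)⌉₊ + 1) ^ t * (2 * R + 1) ^ (n * q + n - 1) := by
      intro T hT j₀
      have hexp : q * n + (n - 1) = n * q + n - 1 := by
        have := j₀.2
        have h4 : q * n = n * q := mul_comm _ _
        omega
      calc ((face n R j₀ R).biUnion fun f => Eq T f).card * (2 * R + 1) ^ t
          ≤ (∑ f ∈ face n R j₀ R, (Eq T f).card) * (2 * R + 1) ^ t := by
            gcongr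
            exact Finset.card_biUnion_le
        _ = ∑ f ∈ face n R j₀ R, (Eq T f).card * (2 * R + 1) ^ t := by rw [Finset.sum_mul]
        _ ≤ ∑ _f ∈ face n R j₀ R, (2 * ⌈C T * (2 * L)⌉₊ + 1) ^ t * (2 * R + 1) ^ (q * n) :=
            Finset.sum_le_sum fun f hf => h1 T hT j₀ f hf
        _ = (2 * ⌈C T * (2 * L)⌉₊ + 1) ^ t * (2 * R + 1) ^ (q * n + (n - 1)) := by
            rw [Finset.sum_const, card_face, smul_eq_mul, pow_add]
            ring
        _ = _ := by rw [hexp]
    calc E.card * (2 * R + 1) ^ t ≤ (∑ T ∈ G, (Finset.univ.biUnion fun j₀ : Fin n =>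
          (face n R j₀ R).biUnion fun f => Eq T f).card) * (2 * R + 1) ^ t := by
          gcongr
          exact Finset.card_biUnion_le
      _ ≤ (∑ T ∈ G, ∑ j₀ : Fin n, ((face n R j₀ R).biUnion fun f => Eq T f).card) *
          (2 * R + 1) ^ t := by
          gcongr
          exact Finset.card_biUnion_le
      _ = ∑ T ∈ G, ∑ j₀ : Fin n, ((face n R j₀ R).biUnion fun f => Eq T f).card *
          (2 * R + 1) ^ t := by simp only [Finset.sum_mul]
      _ ≤ ∑ T ∈ G, ∑ _j₀ : Fin n, (2 * ⌈C T * (2 * L)⌉₊ + 1) ^ t *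
          (2 * R + 1) ^ (n * q + n - 1) :=
          Finset.sum_le_sum fun T hT => Finset.sum_le_sum fun j₀ _ => h3 T hT j₀
      _ = (∑ T ∈ G, (2 * ⌈C T * (2 * L)⌉₊ + 1) ^ t) * (n * (2 * R + 1) ^ (n * q + n - 1)) := by
          rw [Finset.sum_mul]
          refine Finset.sum_congr rfl fun T _ => ?_
          rw [Finset.sum_const, Finset.card_univ, Fintype.card_fin, smul_eq_mul]
          ring
      _ ≤ c₀ * (n * (2 * R + 1) ^ (n * q + n - 1)) := by
          gcongr
          exact Finset.sum_le_sum_of_subset (Finset.filter_subset _ _)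
      _ = c₀ * n * (2 * R + 1) ^ (n * q + n - 1) := by ring
  · rintro e he ⟨T, hT, φ, hφ, hφK⟩
    have hn : Nonempty (Fin n) := by
      by_contra hcon
      rw [not_nonempty_iff] at hcon
      have : φ = 0 := Subsingleton.elim _ _
      rw [this, norm_zero] at hφ
      exact zero_ne_one hφ
    obtain ⟨j₀, hj₀⟩ : ∃ j₀, ‖φ j₀‖ = 1 := by
      obtain ⟨j₀, hj₀⟩ := Finite.exists_max fun j => ‖φ j‖
      refine ⟨j₀, le_antisymm (hφ ▸ norm_le_pi_norm φ j₀) ?_⟩
      rw [← hφ]
      exact (pi_norm_le_iff_of_nonneg (norm_nonneg _)).2 hj₀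
    obtain ⟨ψ, hψ1, hψ0, hψK⟩ : ∃ ψ : Fin n → ℝ, (∀ j, |ψ j| ≤ 1) ∧ ψ j₀ = 1 ∧
        ∀ i ∈ T, |∑ j, ψ j * ∑ k, (e k j : ℝ) * lam i k| ≤ K := by
      have hle : ∀ j, |φ j| ≤ 1 := fun j => hφ ▸ norm_le_pi_norm φ j
      rcases abs_eq (zero_le_one) |>.1 (show |φ j₀| = 1 from hj₀) with h | h
      · exact ⟨φ, hle, h, hφK⟩
      · refine ⟨-φ, fun j => ?_, ?_, fun i hi => ?_⟩
        · rw [Pi.neg_apply, abs_neg]
          exact hle j
        · rw [Pi.neg_apply, h, neg_neg]
        · have h1 : ∑ j, (-φ) j * ∑ k, (e k j : ℝ) * lam i k =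
              -∑ j, φ j * ∑ k, (e k j : ℝ) * lam i k := by
            rw [← Finset.sum_neg_distrib]
            refine Finset.sum_congr rfl fun j _ => ?_
            rw [Pi.neg_apply, neg_mul]
          rw [h1, abs_neg]
          exact hφK i hi
    let f : Fin n → ℤ := fun j => ⌊(R : ℝ) * ψ j⌋
    have hR0 : (0 : ℝ) < R := by exact_mod_cast hR
    have hf0 : f j₀ = R := by
      change ⌊(R : ℝ) * ψ j₀⌋ = _
      rw [hψ0, mul_one]
      exact Int.floor_natCast R
    have hfle : ∀ j, |f j| ≤ R := by
      intro j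
      have h1 := abs_le.1 (hψ1 j)
      rw [abs_le]
      constructor
      · refine Int.le_floor.2 ?_
        push_cast
        nlinarith [h1.1]
      · have h2 : (⌊(R : ℝ) * ψ j⌋ : ℝ) ≤ R := (Int.floor_le _).trans (by nlinarith [h1.2])
        exact_mod_cast h2
    refine Finset.mem_biUnion.2 ⟨T, Finset.mem_filter.2 ⟨Finset.mem_univ _, hT⟩,
      Finset.mem_biUnion.2 ⟨j₀, Finset.mem_univ _, Finset.mem_biUnion.2 ⟨f, ?_,
        Finset.mem_filter.2 ⟨mem_boxX.2 he, ?_⟩⟩⟩⟩
    · rw [face, Fintype.mem_piFinset]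
      intro j
      by_cases hj : j = j₀
      · rw [if_pos hj, hj, hf0]
        exact Finset.mem_singleton_self _
      · rw [if_neg hj, Finset.mem_Icc, ← abs_le]
        exact hfle j
    · rintro ⟨i, hi⟩
      change |∑ k, lam i k * ∑ j, (f j : ℝ) * e k j| ≤ R * L
      have h2 : ∑ k, lam i k * ∑ j, (f j : ℝ) * e k j =
          R * (∑ j, ψ j * ∑ k, (e k j : ℝ) * lam i k) +
          ∑ k, lam i k * ∑ j, ((f j : ℝ) - R * ψ j) * (e k j : ℝ) := by
        have h3 : ∑ j, ψ j * ∑ k, (e k j : ℝ) * lam i k =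
            ∑ k, lam i k * ∑ j, ψ j * (e k j : ℝ) := by
          simp only [Finset.mul_sum]
          rw [Finset.sum_comm]
          refine Finset.sum_congr rfl fun k _ => Finset.sum_congr rfl fun j _ => ?_
          ring
        rw [h3, Finset.mul_sum, ← Finset.sum_add_distrib]
        refine Finset.sum_congr rfl fun k _ => ?_
        simp only [Finset.mul_sum, ← Finset.sum_add_distrib]
        refine Finset.sum_congr rfl fun j _ => ?_
        ring
      have h3 : |∑ k, lam i k * ∑ j, ((f j : ℝ) - R * ψ j) * (e k j : ℝ)| ≤ R * (n * Λ) := by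
        calc |∑ k, lam i k * ∑ j, ((f j : ℝ) - R * ψ j) * (e k j : ℝ)|
            ≤ ∑ k, |lam i k * ∑ j, ((f j : ℝ) - R * ψ j) * (e k j : ℝ)| :=
              Finset.abs_sum_le_sum_abs _ _
          _ ≤ ∑ k, |lam i k| * (n * R) := by
              refine Finset.sum_le_sum fun k _ => ?_
              rw [abs_mul]
              refine mul_le_mul_of_nonneg_left ?_ (abs_nonneg _)
              calc |∑ j, ((f j : ℝ) - R * ψ j) * (e k j : ℝ)|
                  ≤ ∑ j, |((f j : ℝ) - R * ψ j) * (e k j : ℝ)| := Finset.abs_sum_le_sum_abs _ _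
                _ ≤ ∑ _j : Fin n, (1 : ℝ) * R := by
                    refine Finset.sum_le_sum fun j _ => ?_
                    rw [abs_mul]
                    refine mul_le_mul ?_ ?_ (abs_nonneg _) zero_le_one
                    · have h4 := Int.floor_le ((R : ℝ) * ψ j)
                      have h5 := Int.lt_floor_add_one ((R : ℝ) * ψ j)
                      rw [abs_le]
                      constructor
                      · change -1 ≤ (⌊(R : ℝ) * ψ j⌋ : ℝ) - R * ψ j
                        linarith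
                      · change (⌊(R : ℝ) * ψ j⌋ : ℝ) - R * ψ j ≤ 1
                        linarith
                    · exact_mod_cast he k j
                _ = n * R := by
                    rw [Finset.sum_const, Finset.card_univ, Fintype.card_fin, nsmul_eq_mul,
                      one_mul]
          _ = (∑ k, |lam i k|) * (n * R) := by rw [Finset.sum_mul]
          _ ≤ Λ * (n * R) := by
              gcongr
              exact Finset.single_le_sum (f := fun i => ∑ k, |lam i k|)
                (fun _ _ => Finset.sum_nonneg fun _ _ => abs_nonneg _) (Finset.mem_univ i)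
          _ = R * (n * Λ) := by ring
      rw [h2]
      calc |R * (∑ j, ψ j * ∑ k, (e k j : ℝ) * lam i k) +
            ∑ k, lam i k * ∑ j, ((f j : ℝ) - R * ψ j) * (e k j : ℝ)|
          ≤ |R * (∑ j, ψ j * ∑ k, (e k j : ℝ) * lam i k)| +
            |∑ k, lam i k * ∑ j, ((f j : ℝ) - R * ψ j) * (e k j : ℝ)| := abs_add_le _ _
        _ ≤ R * K + R * (n * Λ) := by
            refine add_le_add ?_ h3
            rw [abs_mul, abs_of_pos hR0]
            exact mul_le_mul_of_nonneg_left (hψK i hi) hR0.le
        _ = R * L := by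
            simp only [L]
            ring

end Pool.Agent.TH526.ZT
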