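import Pool.Agent.TH526.ZT.K
import Pool.Agent.TH526.ZT.J

/-!
Logarithms of units of number fields (helper file).
-/

set_option autoImplicit false

namespace Pool.Agent.TH526.ZT

open NumberField NumberField.Units NumberField.InfinitePlace

/-- At all infinite places but one the vectors of logarithms of fundamental units are linearly
independent (Dirichlet). -/
theorem units_independent (F : Type) [Field F] [NumberField F] (T : Finset (InfinitePlace F))
    (hT : T.card < Fintype.card (InfinitePlace F)) :
    LinearIndependent ℝ fun (w : T) (k : Fin (rank F)) =>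
      Real.log ((w : InfinitePlace F) (fundSystem F k : F)) := by
  classical
  obtain ⟨w', hw'⟩ : ∃ w', w' ∉ T := by
    by_contra hcon
    push Not at hcon
    rw [Finset.eq_univ_of_forall hcon, Finset.card_univ] at hT
    exact lt_irrefl _ hT
  have hcard : Fintype.card {w : InfinitePlace F // w ≠ w'} = Fintype.card (Fin (rank F)) := by
    rw [Fintype.card_fin, Fintype.card_subtype_compl, Fintype.card_subtype_eq]
    rfl
  let e : {w : InfinitePlace F // w ≠ w'} ≃ Fin (rank F) := Fintype.equivOfCardEq hcard
  have hdet : (Matrix.of fun i w : {w // w ≠ w'} => (mult w.val : ℝ) *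
      Real.log (w.val (fundSystem F (e i) : F))).det ≠ 0 := by
    intro h
    have h1 := regulator_eq_det F w' e
    rw [h, abs_zero] at h1
    exact regulator_ne_zero F h1
  have h1 := Matrix.linearIndependent_cols_of_det_ne_zero hdet
  have hne : ∀ w : T, (w : InfinitePlace F) ≠ w' := fun w h => hw' (h ▸ w.2)
  have h2 := h1.comp (fun w : T => (⟨w, hne w⟩ : {w // w ≠ w'})) (fun a b h => by
    have := congrArg Subtype.val h
    exact Subtype.ext this)
  have hm : ∀ w : T, ((mult (w : InfinitePlace F) : ℝ))⁻¹ ≠ 0 := fun w =>
    inv_ne_zero (by exact_mod_cast mult_pos.ne')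
  have h3 := h2.units_smul fun w : T => Units.mk0 _ (hm w)
  have h4 := h3.map' (LinearMap.funLeft ℝ ℝ e.symm)
    (LinearMap.ker_eq_bot.2 (LinearMap.funLeft_injective_of_surjective ℝ ℝ _ e.symm.surjective))
  have h5 : (fun (w : T) (k : Fin (rank F)) =>
      Real.log ((w : InfinitePlace F) (fundSystem F k : F))) =
      (LinearMap.funLeft ℝ ℝ e.symm) ∘ ((fun w : T => Units.mk0 _ (hm w)) •
        (Matrix.of fun i w : {w // w ≠ w'} => (mult w.val : ℝ) *
          Real.log (w.val (fundSystem F (e i) : F))).col ∘
        fun w : T => (⟨w, hne w⟩ : {w // w ≠ w'})) := by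
    funext w k
    change _ = ((mult (w : InfinitePlace F) : ℝ))⁻¹ * ((mult (w : InfinitePlace F) : ℝ) *
      Real.log ((w : InfinitePlace F) (fundSystem F (e (e.symm k)) : F)))
    rw [Equiv.apply_symm_apply, inv_mul_cancel_left₀ (by exact_mod_cast mult_pos.ne')]
  rw [h5]
  exact h4

end Pool.Agent.TH526.ZT
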